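import Pool.Agent.TH334.PR.Rel

/-!
# Reliable simulation of an algorithm with few entangled reads
-/

set_option autoImplicit false

namespace Pool.Agent.TH334.PR

open Finset Pool.Agent.H572R2 Pool.Agent.TH334.NR

variable {N : ℕ} {B : Type} [Fintype B] [DecidableEq B]

lemma AA_all (A : Alg N B) (T : ℕ) (S : Finset (Fin N)) (a : Fin N → Bool) :
    AA (fun t k x => A.evo.mag t k x) T S a ≤ (T : ℝ) + 1 := by
  unfold AA
  have h1 : ∀ t ∈ Finset.range T, ∑ k ∈ Sᶜ, Ex S a (fun x => A.evo.mag t k x) ≤ 1 := by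
    intro t _
    unfold Ex
    rw [← EE_sum, ← EE_const (N := N) 1]
    apply EE_mono
    intro x
    exact (Finset.sum_le_sum_of_subset_of_nonneg (Finset.subset_univ _)
      fun k _ _ => A.mag_nonneg t k _).trans (A.sum_mag_le t _)
  have h2 := Finset.sum_le_sum h1
  rw [Finset.sum_const, Finset.card_range, nsmul_eq_mul, mul_one] at h2
  linarith

variable {A : Alg N B} {T k : ℕ} {c : ℕ → B → ℕ} {X : ℕ → Finset B}

/-- Reliable simulation: parameters. `J` is the inverse of the error, `h` controls the probability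
of failure, `M` is a power of two (at least `4 J h`). -/
theorem rel_param (h : KRs A T k c X) (Ac : Finset B) (J g l : ℕ) (hJ : 1 ≤ J)
    (hl : 4 * J * g ≤ 2 ^ (l + 1)) (Q : ℝ) (hQ0 : 0 < Q)
    (hQ : 8 * ((2 : ℝ) ^ l) ^ 2 * (T : ℝ) ^ 2 * KM T k (2 * T * 2 ^ l) ≤ Q) (D : ℕ)
    (hD : 4 * ((T : ℝ) + 1) * g * (J * (l + 1) * Q) ≤ D) (hQ1 : 1 ≤ Q) :
    ∃ e : DTree N, e.depth ≤ D ∧
      EE (fun x => ii (1 / J) (A.ap T Ac x - e.eval x)) ≤ 4 * (1 / 2) ^ g := by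
  have hJ1 : (1 : ℝ) ≤ J := by exact_mod_cast hJ
  have hJ0 : (0 : ℝ) < J := by linarith
  set ε : ℝ := 1 / J with hε
  have hε0 : 0 < ε := by positivity
  have hε1 : ε ≤ 1 := (div_le_one hJ0).2 hJ1
  set τ : ℝ := 1 / (2 * (J * (l + 1) * Q)) with hτ
  have hden : 0 < J * ((l : ℝ) + 1) * Q := by positivity
  have hτ0 : 0 < τ := by positivity
  have hτQ : ((l + 1 : ℕ) : ℝ) * (τ * Q) ≤ ε / 2 := by
    refine le_of_eq ?_
    rw [hτ, hε]
    push_cast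
    field_simp
  have hfail : 2 * (1 - ε / 4) ^ (2 ^ (l + 1)) ≤ 2 * (1 / 2 : ℝ) ^ g := by
    have h1 : (1 - ε / 4) ≤ Real.exp (-(ε / 4)) := by
      have := Real.add_one_le_exp (-(ε / 4))
      linarith
    have h2 : 0 ≤ 1 - ε / 4 := by linarith
    have h3 : (1 - ε / 4) ^ (2 ^ (l + 1)) ≤ Real.exp (-(g : ℝ)) := by
      calc (1 - ε / 4) ^ (2 ^ (l + 1)) ≤ (Real.exp (-(ε / 4))) ^ (2 ^ (l + 1)) :=
            pow_le_pow_left₀ h2 h1 _
        _ = Real.exp (((2 ^ (l + 1) : ℕ) : ℝ) * (-(ε / 4))) := by rw [Real.exp_nat_mul]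
        _ ≤ Real.exp (-(g : ℝ)) := by
            apply Real.exp_le_exp.2
            have h4 : (4 * J * g : ℝ) ≤ ((2 ^ (l + 1) : ℕ) : ℝ) := by exact_mod_cast hl
            have h5 : (g : ℝ) = (4 * J * g) * (ε / 4) := by
              rw [hε]; field_simp
            have h6 : (4 * J * g : ℝ) * (ε / 4) ≤ ((2 ^ (l + 1) : ℕ) : ℝ) * (ε / 4) := by
              gcongr
            linarith
    have h4 : Real.exp (-(g : ℝ)) ≤ (1 / 2 : ℝ) ^ g := by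
      have h5 : Real.exp (-1) ≤ 1 / 2 := by
        have := Real.exp_one_gt_d9
        rw [Real.exp_neg, one_div]
        apply inv_anti₀ (by norm_num)
        linarith
      calc Real.exp (-(g : ℝ)) = (Real.exp (-1)) ^ g := by
            rw [← Real.exp_nat_mul]; congr 1; ring
        _ ≤ (1 / 2) ^ g := pow_le_pow_left₀ (Real.exp_pos _).le h5 g
    linarith
  have hR : (0 : ℝ) < (T : ℝ) + 1 := by positivity
  obtain ⟨e, he1, he2⟩ := relsim (m := fun t k x => A.evo.mag t k x) (fun t k x => A.mag_nonneg t k x)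
    T (A.ap T Ac) ε (2 * (1 / 2) ^ g) τ ((T : ℝ) + 1) hτ0 hR (fun S a => AA_all A T S a)
    (fun S a hS => (node_tails h τ hτ0.le Ac l Q ε hε0 hε1 hQ hτQ S a hS).trans hfail) D g
    (by
      have h7 : 2 * ((T : ℝ) + 1) * g = τ * (4 * ((T : ℝ) + 1) * g * (J * (l + 1) * Q)) := by
        rw [hτ]; field_simp; ring
      rw [h7]
      gcongr)
    (by
      have h8 : τ ≤ 1 := by
        rw [hτ, div_le_one (by positivity)]
        have : 1 ≤ J * ((l : ℝ) + 1) * Q := by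
          have h9 : (1 : ℝ) ≤ (l : ℝ) + 1 := by
            have : (0 : ℝ) ≤ l := Nat.cast_nonneg l
            linarith
          have h10 : 1 ≤ J * ((l : ℝ) + 1) := one_le_mul_of_one_le_of_one_le hJ1 h9
          exact one_le_mul_of_one_le_of_one_le h10 hQ1
        linarith
      have : (0 : ℝ) ≤ T := Nat.cast_nonneg T
      linarith)
  exact ⟨e, he1, he2.trans (by linarith)⟩

/-- The reliable simulation with an explicit depth. -/
theorem rel_final (h : KRs A T k c X) (Ac : Finset B) (J g : ℕ) (hJ : 1 ≤ J) (hg : 1 ≤ g)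
    (hT : 1 ≤ T) :
    ∃ e : DTree N, (e.depth : ℝ) ≤ 2 ^ 23 * (1 + 208 * J * g * (T : ℝ) ^ 3) ^ k * (T : ℝ) ^ 9
        * (J * g) ^ 6 ∧
      EE (fun x => ii (1 / J) (A.ap T Ac x - e.eval x)) ≤ 4 * (1 / 2) ^ g := by
  have hJ1 : (1 : ℝ) ≤ J := by exact_mod_cast hJ
  have hg1 : (1 : ℝ) ≤ g := by exact_mod_cast hg
  have hT1 : (1 : ℝ) ≤ T := by exact_mod_cast hT
  -- the power of two
  set l : ℕ := Nat.clog 2 (4 * J * g) - 1 with hl
  have hpos : 1 < 4 * J * g := by nlinarith [Nat.mul_le_mul hJ hg]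
  have hcl : 1 ≤ Nat.clog 2 (4 * J * g) := Nat.clog_pos (by norm_num) (by omega)
  have hl1 : l + 1 = Nat.clog 2 (4 * J * g) := by omega
  have h1 : 4 * J * g ≤ 2 ^ (l + 1) := by
    rw [hl1]; exact Nat.le_pow_clog (by norm_num) _
  have h2 : 2 ^ l < 4 * J * g := by
    have := Nat.pow_pred_clog_lt_self (b := 2) (by norm_num) hpos
    rw [← hl1] at this
    exact this
  set W : ℝ := J * g with hW
  have hW1 : 1 ≤ W := one_le_mul_of_one_le_of_one_le hJ1 hg1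
  have h3 : ((2 : ℝ) ^ l) ≤ 4 * W := by
    have : ((2 ^ l : ℕ) : ℝ) ≤ ((4 * J * g : ℕ) : ℝ) := by exact_mod_cast h2.le
    push_cast at this
    rw [hW]; linarith
  have h4 : (l : ℝ) + 1 ≤ 4 * W := by
    refine le_trans ?_ h3
    have : l + 1 ≤ 2 ^ l := Nat.lt_two_pow_self
    exact_mod_cast this
  have hKM : KM T k (2 * T * 2 ^ l) ≤ 2 ^ 10 * (1 + 208 * J * g * (T : ℝ) ^ 3) ^ k
      * (T : ℝ) ^ 6 * W ^ 2 := by
    unfold KM
    have e1 : (((2 * T * 2 ^ l : ℕ)) : ℝ) ≤ 8 * T * W := by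
      push_cast
      nlinarith
    have e2 : 1 + (T : ℝ) ^ 2 * ((2 * T * 2 ^ l : ℕ) : ℝ) ≤ 16 * (T : ℝ) ^ 3 * W := by
      have e3 : (T : ℝ) ^ 2 * ((2 * T * 2 ^ l : ℕ) : ℝ) ≤ (T : ℝ) ^ 2 * (8 * T * W) := by gcongr
      have e4 : 1 ≤ (T : ℝ) ^ 3 * W :=
        one_le_mul_of_one_le_of_one_le (one_le_pow₀ hT1) hW1
      nlinarith
    have e5 : 1 + 13 * ((T : ℝ) ^ 2 * ((2 * T * 2 ^ l : ℕ) : ℝ)) ≤ 1 + 208 * J * g * (T : ℝ) ^ 3 := by
      have e3 : (T : ℝ) ^ 2 * ((2 * T * 2 ^ l : ℕ) : ℝ) ≤ (T : ℝ) ^ 2 * (8 * T * W) := by gcongr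
      have e6 : (0 : ℝ) ≤ (T : ℝ) ^ 3 * W := by positivity
      have e7 : 208 * J * g * (T : ℝ) ^ 3 = 208 * ((T : ℝ) ^ 3 * W) := by rw [hW]; ring
      rw [e7]
      nlinarith
    calc 4 * (1 + (T : ℝ) ^ 2 * ((2 * T * 2 ^ l : ℕ) : ℝ)) ^ 2
          * (1 + 13 * ((T : ℝ) ^ 2 * ((2 * T * 2 ^ l : ℕ) : ℝ))) ^ k
        ≤ 4 * (16 * (T : ℝ) ^ 3 * W) ^ 2 * (1 + 208 * J * g * (T : ℝ) ^ 3) ^ k := by
          gcongr
      _ = _ := by ring
  set C : ℝ := (1 + 208 * J * g * (T : ℝ) ^ 3) ^ k with hC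
  have hC1 : 1 ≤ C := one_le_pow₀ (by
    have : (0 : ℝ) ≤ 208 * J * g * (T : ℝ) ^ 3 := by positivity
    linarith)
  set Q : ℝ := 2 ^ 17 * C * (T : ℝ) ^ 8 * W ^ 4 with hQ
  have hQ1 : 1 ≤ Q := by
    rw [hQ]
    have e1 : (1 : ℝ) ≤ 2 ^ 17 := by norm_num
    have e2 := one_le_mul_of_one_le_of_one_le e1 hC1
    have e3 := one_le_mul_of_one_le_of_one_le e2 (one_le_pow₀ hT1 (n := 8))
    exact one_le_mul_of_one_le_of_one_le e3 (one_le_pow₀ hW1)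
  have hQb : 8 * ((2 : ℝ) ^ l) ^ 2 * (T : ℝ) ^ 2 * KM T k (2 * T * 2 ^ l) ≤ Q := by
    calc 8 * ((2 : ℝ) ^ l) ^ 2 * (T : ℝ) ^ 2 * KM T k (2 * T * 2 ^ l)
        ≤ 8 * (4 * W) ^ 2 * (T : ℝ) ^ 2 * (2 ^ 10 * C * (T : ℝ) ^ 6 * W ^ 2) := by
          have := KM_nonneg T k (2 * T * 2 ^ l)
          gcongr
      _ = Q := by rw [hQ]; ring
  set V : ℝ := 4 * ((T : ℝ) + 1) * g * (J * (l + 1) * Q) with hV
  have hV0 : 0 ≤ V := by positivity
  obtain ⟨e, he1, he2⟩ := rel_param h Ac J g l hJ h1 Q (by linarith) hQb ⌈V⌉₊ (Nat.le_ceil V) hQ1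
  refine ⟨e, ?_, he2⟩
  have h5 : (e.depth : ℝ) ≤ ⌈V⌉₊ := by exact_mod_cast he1
  have h6 : ((⌈V⌉₊ : ℕ) : ℝ) ≤ V + 1 := (Nat.ceil_lt_add_one hV0).le
  have h7 : V ≤ 2 ^ 22 * C * (T : ℝ) ^ 9 * W ^ 6 := by
    calc V ≤ 4 * (2 * (T : ℝ)) * g * (J * (4 * W) * Q) := by
          rw [hV]
          have : (T : ℝ) + 1 ≤ 2 * T := by linarith
          gcongr
      _ = 2 ^ 22 * C * (T : ℝ) ^ 9 * (W ^ 5 * (J * g)) := by rw [hQ]; ring
      _ = _ := by rw [← hW]; ring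
  have h8 : 1 ≤ C * (T : ℝ) ^ 9 * W ^ 6 := by
    have e3 := one_le_mul_of_one_le_of_one_le hC1 (one_le_pow₀ hT1 (n := 9))
    exact one_le_mul_of_one_le_of_one_le e3 (one_le_pow₀ hW1)
  calc (e.depth : ℝ) ≤ V + 1 := h5.trans h6
    _ ≤ 2 ^ 22 * (C * (T : ℝ) ^ 9 * W ^ 6) + C * (T : ℝ) ^ 9 * W ^ 6 := by linarith
    _ ≤ 2 ^ 23 * (C * (T : ℝ) ^ 9 * W ^ 6) := by linarith
    _ = _ := by rw [hW]; ring

end Pool.Agent.TH334.PR
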