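import Pool.Agent.TH334.NR.SG3

/-!
# Algorithms all of whose reads are product reads: coefficients over the sign cube
-/

set_option autoImplicit false

namespace Pool.Agent.TH334.PR

open Finset Matrix Pool.Agent.H572R2 Pool.Agent.TH334.NR

variable {N : ℕ} {B : Type} [Fintype B] [DecidableEq B]

/-- Toggling the coefficients. -/
def tg (o : Finset (Fin N)) (c : Finset (Fin N) → ℂ) (S : Finset (Fin N)) : ℂ := c (symmDiff o S)

/-- The coefficients of the states, over the sign cube. -/
noncomputable def cf (A : Alg N B) : ℕ → Finset (Fin N) → B → ℂ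
  | 0 => fun S => if S = ∅ then A.v else 0
  | t + 1 => fun S => A.W t *ᵥ (fun b => cf A t (symmDiff (A.os b) S) b)

/-- The coefficients at a basis state. -/
noncomputable def cb (A : Alg N B) (t : ℕ) (b : B) (S : Finset (Fin N)) : ℂ := cf A t S b

lemma cf_zero (A : Alg N B) (S : Finset (Fin N)) : cf A 0 S = if S = ∅ then A.v else 0 := rfl

lemma cb_succ (A : Alg N B) (t : ℕ) (b : B) (S : Finset (Fin N)) :
    cb A (t + 1) b S = ∑ b', A.W t b b' * tg (A.os b') (cb A t b') S := rfl

lemma mon_ite (u : Fin N → ℂ) (S : Finset (Fin N)) : mon u S = ∏ i, if i ∈ S then u i else 1 := by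
  unfold mon
  rw [Finset.prod_ite_mem, Finset.univ_inter]

lemma sg_sq' (x : Fin N → Bool) (i : Fin N) : sg x i * sg x i = 1 := by
  unfold sg; split_ifs <;> norm_num

lemma mon_symm (x : Fin N → Bool) (o S : Finset (Fin N)) :
    mon (sg x) (symmDiff o S) = mon (sg x) o * mon (sg x) S := by
  rw [mon_ite, mon_ite, mon_ite, ← Finset.prod_mul_distrib]
  refine Finset.prod_congr rfl fun i _ => ?_
  by_cases h1 : i ∈ o <;> by_cases h2 : i ∈ S <;>
    simp [Finset.mem_symmDiff, h1, h2, sg_sq']

lemma symm_inv (o : Finset (Fin N)) :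
    Function.Involutive (fun S : Finset (Fin N) => symmDiff o S) := by
  intro S
  show symmDiff o (symmDiff o S) = S
  rw [symmDiff_symmDiff_cancel_left]

lemma gv_tg (x : Fin N → Bool) (o : Finset (Fin N)) (c : Finset (Fin N) → ℂ) :
    gv (tg o c) (sg x) = mon (sg x) o * gv c (sg x) := by
  unfold gv tg
  rw [Finset.mul_sum, ← Equiv.sum_comp (symm_inv o).toPerm]
  refine Finset.sum_congr rfl fun S _ => ?_
  show mon (sg x) (symmDiff o S) * c (symmDiff o (symmDiff o S)) = _
  rw [symmDiff_symmDiff_cancel_left, mon_symm]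
  ring

/-- One step, for all phases. -/
lemma gv_succ (A : Alg N B) (u : Fin N → ℂ) (t : ℕ) :
    (fun b => gv (cb A (t + 1) b) u)
      = A.W t *ᵥ (fun b => gv (tg (A.os b) (cb A t b)) u) := by
  funext b
  unfold gv
  simp only [mulVec, dotProduct, cb_succ]
  simp_rw [Finset.mul_sum]
  rw [Finset.sum_comm]
  refine Finset.sum_congr rfl fun b' _ => Finset.sum_congr rfl fun S _ => ?_
  ring

lemma gv_zero (A : Alg N B) (u : Fin N → ℂ) (b : B) : gv (cb A 0 b) u = A.v b := by
  unfold gv cb
  rw [Finset.sum_eq_single ∅]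
  · simp [mon, cf_zero]
  · intro S _ hS
    simp [cf_zero, hS]
  · intro h; exact absurd (Finset.mem_univ _) h

/-- Expansion of the state over the sign cube. -/
lemma st_eq (A : Alg N B) (x : Fin N → Bool) (t : ℕ) :
    A.st (sg x) t = fun b => gv (cb A t b) (sg x) := by
  induction t with
  | zero =>
    funext b
    rw [gv_zero]
    rfl
  | succ t ih =>
    rw [gv_succ, Alg.st_succ, ih]
    congr 1
    funext b
    rw [gv_tg]

/-! ### Splitting off a position -/

/-- The coefficients of the sets without `j`. -/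
def off (j : Fin N) (a : Finset (Fin N) → ℂ) (R : Finset (Fin N)) : ℂ := if j ∈ R then 0 else a R

/-- The coefficients of the sets with `j`, which is removed. -/
def lk (j : Fin N) (a : Finset (Fin N) → ℂ) (R : Finset (Fin N)) : ℂ :=
  if j ∈ R then 0 else a (insert j R)

lemma sum_split {M : Type*} [AddCommMonoid M] (j : Fin N) (f : Finset (Fin N) → M) :
    ∑ R, f R = ∑ R, if j ∈ R then 0 else f R + f (insert j R) := by
  have h1 : ∑ R, f R = ∑ R, (if j ∈ R then 0 else f R) + ∑ R, (if j ∈ R then f R else 0) := by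
    rw [← Finset.sum_add_distrib]
    refine Finset.sum_congr rfl fun R _ => ?_
    split_ifs <;> simp
  have h2 : ∑ R, (if j ∈ R then f R else 0) = ∑ R, (if j ∈ R then 0 else f (insert j R)) := by
    rw [← Equiv.sum_comp (symm_inv ({j} : Finset (Fin N))).toPerm]
    refine Finset.sum_congr rfl fun R _ => ?_
    show (if j ∈ symmDiff {j} R then f (symmDiff {j} R) else 0) = _
    by_cases h : j ∈ R
    · have : j ∉ symmDiff {j} R := by simp [Finset.mem_symmDiff, h]
      rw [if_neg this, if_pos h]
    · have h3 : j ∈ symmDiff {j} R := by simp [Finset.mem_symmDiff, h]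
      have h4 : symmDiff {j} R = insert j R := by
        ext i
        simp only [Finset.mem_symmDiff, Finset.mem_singleton, Finset.mem_insert]
        constructor
        · rintro (⟨h5, _⟩ | ⟨h5, _⟩)
          · exact Or.inl h5
          · exact Or.inr h5
        · rintro (h5 | h5)
          · exact Or.inl ⟨h5, fun h6 => h (h5 ▸ h6)⟩
          · exact Or.inr ⟨h5, fun h6 => h (h6 ▸ h5)⟩
      rw [if_pos h3, if_neg h, h4]
  rw [h1, h2, ← Finset.sum_add_distrib]
  refine Finset.sum_congr rfl fun R _ => ?_
  split_ifs <;> simp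

lemma symm_sing {j : Fin N} {R : Finset (Fin N)} (h : j ∉ R) : symmDiff {j} R = insert j R := by
  ext i
  simp only [Finset.mem_symmDiff, Finset.mem_singleton, Finset.mem_insert]
  constructor
  · rintro (⟨h5, _⟩ | ⟨h5, _⟩)
    · exact Or.inl h5
    · exact Or.inr h5
  · rintro (h5 | h5)
    · exact Or.inl ⟨h5, fun h6 => h (h5 ▸ h6)⟩
    · exact Or.inr ⟨h5, fun h6 => h (h6 ▸ h5)⟩

lemma off_tg (j : Fin N) (c : Finset (Fin N) → ℂ) : off j (tg {j} c) = lk j c := by
  funext R
  unfold off lk tg
  split_ifs with h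
  · rfl
  · rw [symm_sing h]

lemma lk_tg (j : Fin N) (c : Finset (Fin N) → ℂ) : lk j (tg {j} c) = off j c := by
  funext R
  unfold off lk tg
  split_ifs with h
  · rfl
  · rw [← symm_sing h, symmDiff_symmDiff_cancel_left]

lemma mon_insert (u : Fin N → ℂ) {j : Fin N} {R : Finset (Fin N)} (h : j ∉ R) :
    mon u (insert j R) = u j * mon u R := Finset.prod_insert h

lemma gv_split (j : Fin N) (a : Finset (Fin N) → ℂ) (u : Fin N → ℂ) :
    gv a u = gv (off j a) u + u j * gv (lk j a) u := by
  unfold gv
  rw [sum_split j, Finset.mul_sum, ← Finset.sum_add_distrib]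
  refine Finset.sum_congr rfl fun R _ => ?_
  unfold off lk
  split_ifs with h
  · ring
  · rw [mon_insert u h]; ring

lemma ns_split (j : Fin N) (a : Finset (Fin N) → ℂ) : ns a = ns (off j a) + ns (lk j a) := by
  unfold ns
  rw [sum_split j, ← Finset.sum_add_distrib]
  refine Finset.sum_congr rfl fun R _ => ?_
  unfold off lk
  split_ifs with h
  · simp
  · rfl

lemma gv_smul (k : ℂ) (a : Finset (Fin N) → ℂ) (u : Fin N → ℂ) :
    gv (fun S => k * a S) u = k * gv a u := by
  unfold gv
  rw [Finset.mul_sum]
  refine Finset.sum_congr rfl fun R _ => ?_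
  ring

lemma ns_smul (k : ℂ) (a : Finset (Fin N) → ℂ) : ns (fun S => k * a S) = ‖k‖ ^ 2 * ns a := by
  unfold ns
  rw [Finset.mul_sum]
  refine Finset.sum_congr rfl fun R _ => ?_
  rw [norm_mul, mul_pow]

/-! ### Products over disjoint sets -/

/-- The product over the disjoint pairs of sets. -/
noncomputable def dd (a c : Finset (Fin N) → ℂ) (w u : Fin N → ℂ) : ℂ :=
  ∑ R, ∑ S, if Disjoint R S then mon w R * mon u S * (a R * c S) else 0

lemma dd_smul (k : ℂ) (a c : Finset (Fin N) → ℂ) (w u : Fin N → ℂ) :
    dd a (fun S => k * c S) w u = k * dd a c w u := by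
  unfold dd
  rw [Finset.mul_sum]
  refine Finset.sum_congr rfl fun R _ => ?_
  rw [Finset.mul_sum]
  refine Finset.sum_congr rfl fun S _ => ?_
  split_ifs
  · ring
  · ring

lemma dd_split (j : Fin N) (a c : Finset (Fin N) → ℂ) (w u : Fin N → ℂ) :
    dd a c w u = dd (off j a) (off j c) w u + u j * dd (off j a) (lk j c) w u
      + w j * dd (lk j a) (off j c) w u := by
  unfold dd
  rw [sum_split j, Finset.mul_sum, Finset.mul_sum, ← Finset.sum_add_distrib,
    ← Finset.sum_add_distrib]
  refine Finset.sum_congr rfl fun R _ => ?_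
  by_cases hR : j ∈ R
  · simp [off, lk, hR]
  rw [if_neg hR, sum_split j, sum_split j (fun S => if Disjoint (insert j R) S then _ else _),
    Finset.mul_sum, Finset.mul_sum, ← Finset.sum_add_distrib, ← Finset.sum_add_distrib,
    ← Finset.sum_add_distrib]
  refine Finset.sum_congr rfl fun S _ => ?_
  by_cases hS : j ∈ S
  · simp [off, lk, hS]
  · have h1 : Disjoint R (insert j S) ↔ Disjoint R S := by
      rw [Finset.disjoint_insert_right]
      exact ⟨fun h => h.2, fun h => ⟨hR, h⟩⟩
    have h2 : Disjoint (insert j R) S ↔ Disjoint R S := by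
      rw [Finset.disjoint_insert_left]
      exact ⟨fun h => h.2, fun h => ⟨hS, h⟩⟩
    have h3 : ¬ Disjoint (insert j R) (insert j S) := by
      rw [Finset.disjoint_insert_left]
      exact fun h => h.1 (Finset.mem_insert_self _ _)
    simp only [h1, h2, h3, hS, hR, if_false, off, lk]
    by_cases hd : Disjoint R S
    · simp only [hd, if_true, mon_insert w hR, mon_insert u hS]
      ring
    · simp only [hd, if_false]
      ring

/-- One step of the products, for all phases. -/
lemma dd_succ (A : Alg N B) (a : Finset (Fin N) → ℂ) (w u : Fin N → ℂ) (t : ℕ) :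
    (fun b => dd a (cb A (t + 1) b) w u)
      = A.W t *ᵥ (fun b => dd a (tg (A.os b) (cb A t b)) w u) := by
  funext b
  unfold dd
  simp only [mulVec, dotProduct, cb_succ]
  simp_rw [Finset.mul_sum]
  conv_rhs => rw [Finset.sum_comm]
  refine Finset.sum_congr rfl fun R _ => ?_
  conv_rhs => rw [Finset.sum_comm]
  refine Finset.sum_congr rfl fun S _ => ?_
  by_cases hd : Disjoint R S
  · simp only [hd, if_true]
    refine Finset.sum_congr rfl fun q _ => ?_
    ring
  · simp only [hd, if_false, mul_zero, Finset.sum_const_zero]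

/-- The difference between the product and the product over disjoint pairs. -/
noncomputable def De (A : Alg N B) (a : Finset (Fin N) → ℂ) (w u : Fin N → ℂ) (t : ℕ) (b : B) : ℂ :=
  gv a w * gv (cb A t b) u - dd a (cb A t b) w u

lemma De_zero (A : Alg N B) (a : Finset (Fin N) → ℂ) (w u : Fin N → ℂ) (b : B) :
    De A a w u 0 b = 0 := by
  unfold De
  rw [gv_zero]
  unfold dd gv
  rw [Finset.sum_mul, ← Finset.sum_sub_distrib]
  refine Finset.sum_eq_zero fun R _ => ?_
  rw [Finset.sum_eq_single ∅]
  · simp [mon, cb, cf_zero]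
    ring
  · intro S _ hS
    simp [cb, cf_zero, hS]
  · intro h; exact absurd (Finset.mem_univ _) h

/-- The error made at a step. -/
noncomputable def Er (A : Alg N B) (a : Finset (Fin N) → ℂ) (w u : Fin N → ℂ) (Z : ℕ → B → ℂ)
    (t : ℕ) (b : B) : ℂ :=
  dd a (tg (A.os b) (cb A t b)) w u - Z t b * dd a (cb A t b) w u

/-- The accumulated error. -/
lemma chain (A : Alg N B) (a : Finset (Fin N) → ℂ) (w u : Fin N → ℂ) (Z : ℕ → B → ℂ) {T : ℕ}
    (hZ : ∀ t < T, ∀ b, ‖Z t b‖ = 1)
    (hZ2 : ∀ t < T, ∀ b, gv (tg (A.os b) (cb A t b)) u = Z t b * gv (cb A t b) u) :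
    ∀ t ≤ T, nsq (De A a w u t) ≤ t * ∑ s ∈ Finset.range t, nsq (Er A a w u Z s) := by
  intro t
  induction t with
  | zero =>
    intro _
    unfold nsq
    simp [De_zero]
  | succ t ih =>
    intro ht
    have hs : De A a w u (t + 1)
        = A.W t *ᵥ (fun b => Z t b * De A a w u t b - Er A a w u Z t b) := by
      have e1 : De A a w u (t + 1) = (fun b => gv a w * (fun b => gv (cb A (t + 1) b) u) b)
          - (fun b => dd a (cb A (t + 1) b) w u) := rfl
      rw [e1, gv_succ, dd_succ]
      have e2 : (fun b => gv a w * (A.W t *ᵥ fun b => gv (tg (A.os b) (cb A t b)) u) b)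
          = A.W t *ᵥ (fun b => gv a w * gv (tg (A.os b) (cb A t b)) u) := by
        funext b
        simp only [mulVec, dotProduct]
        rw [Finset.mul_sum]
        refine Finset.sum_congr rfl fun c _ => ?_
        ring
      rw [e2, ← mulVec_sub]
      congr 1
      funext b
      simp only [Pi.sub_apply]
      rw [hZ2 t (by omega) b]
      unfold De Er
      ring
    have e : nsq (De A a w u (t + 1))
        = nsq (fun b => Z t b * De A a w u t b + (- Er A a w u Z t b)) := by
      rw [hs, nsq_unitary _ (A.hW t)]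
      congr 1
    have e3 : nsq (fun b => - Er A a w u Z t b) = nsq (Er A a w u Z t) := by
      unfold nsq
      simp
    have e4 : nsq (fun b => Z t b * De A a w u t b) = nsq (De A a w u t) :=
      nsq_phase _ _ (hZ t (by omega))
    rw [e, Finset.sum_range_succ]
    rcases Nat.eq_zero_or_pos t with h0 | h0
    · subst h0
      have : (fun b => Z 0 b * De A a w u 0 b + (- Er A a w u Z 0 b))
          = fun b => - Er A a w u Z 0 b := by
        funext q
        rw [De_zero, mul_zero, zero_add]
      rw [this, e3]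
      simp
    · have hc : (0 : ℝ) < t := by exact_mod_cast h0
      have h1 := nsq_add_le (fun b => Z t b * De A a w u t b) (fun b => - Er A a w u Z t b) t hc
      rw [e3, e4] at h1
      have h2 := ih (by omega)
      have h3 : (1 + 1 / (t : ℝ)) * nsq (De A a w u t)
          ≤ (1 + 1 / (t : ℝ)) * (t * ∑ s ∈ Finset.range t, nsq (Er A a w u Z s)) := by
        gcongr
      have h4 : (1 + 1 / (t : ℝ)) * (t * ∑ s ∈ Finset.range t, nsq (Er A a w u Z s))
          = (t + 1) * ∑ s ∈ Finset.range t, nsq (Er A a w u Z s) := by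
        field_simp
      push_cast
      linarith

end Pool.Agent.TH334.PR
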