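import Pool.Agent.TH334.PR.Exc

/-!
# At most `k` entangled reads on every path, with cube root phases
-/

set_option autoImplicit false

namespace Pool.Agent.TH334.PR

open Finset Matrix Pool.Agent.H572R2 Pool.Agent.TH334.NR

variable {N : ℕ} {B : Type} [Fintype B] [DecidableEq B]

/-- The counter `c` bounds the number of the reads which are not product reads. -/
structure KR (A : Alg N B) (T k : ℕ) (c : ℕ → B → ℕ) (X : ℕ → Finset B) : Prop where
  le : ∀ t b, c t b ≤ k
  mono : ∀ t < T, ∀ b b', A.W t b' b ≠ 0 → c t b + (if b ∈ X t then 1 else 0) ≤ c (t + 1) b'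
  fac : ∀ t < T, ∀ b, b ∉ X t → ∀ j, A.pos b = some j → PFac j (cb A t b)

lemma below (W : Matrix B B ℂ) (hW : Wᴴ * W = 1) (c c' e : B → ℕ)
    (h : ∀ b b', W b' b ≠ 0 → c b + e b ≤ c' b') (κ : ℕ) (F : B → ℂ) :
    ∑ b', (if c' b' < κ then ‖(W *ᵥ F) b'‖ ^ 2 else 0)
      ≤ ∑ b, if c b + e b < κ then ‖F b‖ ^ 2 else 0 := by
  set F' : B → ℂ := fun b => if c b + e b < κ then F b else 0 with hF'
  have h1 : ∀ b', c' b' < κ → (W *ᵥ F) b' = (W *ᵥ F') b' := by
    intro b' hb'
    simp only [mulVec, dotProduct]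
    refine Finset.sum_congr rfl fun b _ => ?_
    by_cases hw : W b' b = 0
    · rw [hw, zero_mul, zero_mul]
    · have := h b b' hw
      rw [hF']
      simp only
      rw [if_pos (by omega)]
  have h2 : nsq (W *ᵥ F') = nsq F' := nsq_unitary _ hW _
  have h3 : nsq F' = ∑ b, if c b + e b < κ then ‖F b‖ ^ 2 else 0 := by
    unfold nsq
    refine Finset.sum_congr rfl fun b _ => ?_
    rw [hF']
    simp only
    split_ifs <;> simp
  rw [← h3, ← h2]
  unfold nsq
  refine Finset.sum_le_sum fun b' _ => ?_
  split_ifs with hb'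
  · rw [h1 b' hb']
  · positivity

/-- The difference after the query. -/
noncomputable def D1 (A : Alg N B) (a : Finset (Fin N) → ℂ) (w u : Fin N → ℂ) (t : ℕ) (b : B) : ℂ :=
  gv a w * gv (tg (A.os b) (cb A t b)) u - dd a (tg (A.os b) (cb A t b)) w u

lemma De_succ (A : Alg N B) (a : Finset (Fin N) → ℂ) (w u : Fin N → ℂ) (t : ℕ) :
    De A a w u (t + 1) = A.W t *ᵥ D1 A a w u t := by
  have e1 : De A a w u (t + 1) = (fun b => gv a w * (fun b => gv (cb A (t + 1) b) u) b)
      - (fun b => dd a (cb A (t + 1) b) w u) := rfl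
  rw [e1, gv_succ, dd_succ]
  have e2 : (fun b => gv a w * (A.W t *ᵥ fun b => gv (tg (A.os b) (cb A t b)) u) b)
      = A.W t *ᵥ (fun b => gv a w * gv (tg (A.os b) (cb A t b)) u) := by
    funext b
    simp only [mulVec, dotProduct]
    rw [Finset.mul_sum]
    refine Finset.sum_congr rfl fun c _ => ?_
    ring
  rw [e2, ← mulVec_sub]
  rfl

/-- The mass of the products at a basis state. -/
noncomputable def qe (A : Alg N B) (a : Finset (Fin N) → ℂ) (t : ℕ) (b : B) : ℝ :=
  ∑ j, if A.pos b = some j then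
    E3 (fun z => ‖gv (lk j a) (fun i => star (te z i))‖ ^ 2 * ‖gv (cb A t b) (te z)‖ ^ 2) else 0

lemma qe_nonneg (A : Alg N B) (a : Finset (Fin N) → ℂ) (t : ℕ) (b : B) : 0 ≤ qe A a t b :=
  Finset.sum_nonneg fun j _ => by
    split_ifs
    · exact E3_nonneg fun z => by positivity
    · exact le_rfl

lemma lo_nonneg (A : Alg N B) (a : Finset (Fin N) → ℂ) (t : ℕ) (b : B) : 0 ≤ lo A a t b :=
  Finset.sum_nonneg fun j _ => by
    split_ifs
    · exact mul_nonneg (ns_nonneg _) (ns_nonneg _)
    · exact le_rfl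

lemma qe_some (A : Alg N B) (a : Finset (Fin N) → ℂ) (t : ℕ) {b : B} {j : Fin N}
    (h : A.pos b = some j) : qe A a t b
      = E3 (fun z => ‖gv (lk j a) (fun i => star (te z i))‖ ^ 2 * ‖gv (cb A t b) (te z)‖ ^ 2) := by
  unfold qe
  rw [Finset.sum_eq_single j]
  · rw [if_pos h]
  · intro k _ hk
    rw [if_neg]
    intro h2
    rw [h] at h2
    exact hk (Option.some.inj h2).symm
  · intro h2; exact absurd (Finset.mem_univ _) h2

/-- The error at a basis state. -/
noncomputable def er (A : Alg N B) (a : Finset (Fin N) → ℂ) (X : ℕ → Finset B) (t : ℕ) (b : B) : ℝ :=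
  if b ∈ X t then 5 * qe A a t b + 4 * lo A a t b else lo A a t b

lemma er_nonneg (A : Alg N B) (a : Finset (Fin N) → ℂ) (X : ℕ → Finset B) (t : ℕ) (b : B) :
    0 ≤ er A a X t b := by
  have h1 := qe_nonneg A a t b
  have h2 := lo_nonneg A a t b
  unfold er
  split_ifs
  · positivity
  · exact h2

/-- The mean square difference at a basis state. -/
noncomputable def dm (A : Alg N B) (a : Finset (Fin N) → ℂ) (t : ℕ) (b : B) : ℝ :=
  E3 (fun z => ‖De A a (fun i => star (te z i)) (te z) t b‖ ^ 2)

lemma dm_nonneg (A : Alg N B) (a : Finset (Fin N) → ℂ) (t : ℕ) (b : B) : 0 ≤ dm A a t b :=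
  E3_nonneg fun z => by positivity

/-- One query. -/
lemma stepE (A : Alg N B) (a : Finset (Fin N) → ℂ) (X : ℕ → Finset B) (t : ℕ) (b : B)
    (hf : b ∉ X t → ∀ j, A.pos b = some j → PFac j (cb A t b)) (s : ℝ) (hs : 0 < s) :
    E3 (fun z => ‖D1 A a (fun i => star (te z i)) (te z) t b‖ ^ 2)
      ≤ (1 + 1 / s) * dm A a t b + (1 + s) * er A a X t b := by
  have hs1 : 0 ≤ 1 + s := by linarith
  cases hb : A.pos b with
  | none =>
    have e : E3 (fun z => ‖D1 A a (fun i => star (te z i)) (te z) t b‖ ^ 2) = dm A a t b := by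
      unfold dm
      apply E3_congr
      intro z
      unfold D1 De
      rw [os_none A hb, tg_empty]
    rw [e]
    have h1 := dm_nonneg A a t b
    have h2 := mul_nonneg hs1 (er_nonneg A a X t b)
    have h3 : 0 ≤ 1 / s * dm A a t b := by positivity
    linarith
  | some j =>
    by_cases hX : b ∈ X t
    · have h := exc_b a (cb A t b) j s hs
      have e1 : E3 (fun z => ‖D1 A a (fun i => star (te z i)) (te z) t b‖ ^ 2)
          = E3 (fun z => ‖gv a (fun i => star (te z i)) * gv (tg {j} (cb A t b)) (te z)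
            - dd a (tg {j} (cb A t b)) (fun i => star (te z i)) (te z)‖ ^ 2) := by
        apply E3_congr
        intro z
        unfold D1
        rw [os_some A hb]
      rw [e1]
      refine h.trans ?_
      unfold er
      rw [if_pos hX, qe_some A a t hb, lo_some A a t hb]
      have h2 := dd_b_le (lk j a) (cb A t b)
      have h3 := mul_le_mul_of_nonneg_left h2 hs1
      unfold dm De
      nlinarith [h3]
    · obtain ⟨α, β, hab, φ, h0, h1⟩ := hf hX j hb
      obtain ⟨k1, k2⟩ := step_b α β hab a (cb A t b) φ j h0 h1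
      unfold er
      rw [if_neg hX, lo_some A a t hb]
      have h3 : E3 (fun z => ‖D1 A a (fun i => star (te z i)) (te z) t b‖ ^ 2)
          ≤ E3 (fun z => (1 + 1 / s) * ‖De A a (fun i => star (te z i)) (te z) t b‖ ^ 2
            + (1 + s) * ‖dd a (tg {j} (cb A t b)) (fun i => star (te z i)) (te z)
              - ze α β (te z j) * dd a (cb A t b) (fun i => star (te z i)) (te z)‖ ^ 2) := by
        apply E3_mono
        intro z
        have e1 : D1 A a (fun i => star (te z i)) (te z) t b
            = ze α β (te z j) * De A a (fun i => star (te z i)) (te z) t b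
              + -(dd a (tg {j} (cb A t b)) (fun i => star (te z i)) (te z)
              - ze α β (te z j) * dd a (cb A t b) (fun i => star (te z i)) (te z)) := by
          unfold D1 De
          rw [os_some A hb, k1 (te z) (norm_te z)]
          ring
        have e2 := norm_add_sq_le (ze α β (te z j) * De A a (fun i => star (te z i)) (te z) t b)
          (-(dd a (tg {j} (cb A t b)) (fun i => star (te z i)) (te z)
              - ze α β (te z j) * dd a (cb A t b) (fun i => star (te z i)) (te z))) s hs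
        rw [norm_neg, norm_mul, ze_norm α β _ (norm_te z j), one_mul] at e2
        rw [e1]
        exact e2
      rw [E3_add, E3_mul, E3_mul] at h3
      have h4 := mul_le_mul_of_nonneg_left k2 hs1
      unfold dm
      linarith

/-- The total difference at the states with a small counter. -/
noncomputable def DX (A : Alg N B) (a : Finset (Fin N) → ℂ) (c : ℕ → B → ℕ) (κ t : ℕ) : ℝ :=
  ∑ b, if c t b < κ then dm A a t b else 0

/-- The total error at the states which have a small counter after the query. -/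
noncomputable def ER (A : Alg N B) (a : Finset (Fin N) → ℂ) (X : ℕ → Finset B) (c : ℕ → B → ℕ)
    (κ t : ℕ) : ℝ :=
  ∑ b, if c t b + (if b ∈ X t then 1 else 0) < κ then er A a X t b else 0

lemma ER_nonneg (A : Alg N B) (a : Finset (Fin N) → ℂ) (X : ℕ → Finset B) (c : ℕ → B → ℕ)
    (κ t : ℕ) : 0 ≤ ER A a X c κ t :=
  Finset.sum_nonneg fun b _ => by
    by_cases hc : c t b + (if b ∈ X t then 1 else 0) < κ
    · rw [if_pos hc]
      exact er_nonneg A a X t b
    · rw [if_neg hc]

variable {A : Alg N B} {T k : ℕ} {c : ℕ → B → ℕ} {X : ℕ → Finset B}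

lemma DX_zero (a : Finset (Fin N) → ℂ) (κ : ℕ) : DX A a c κ 0 = 0 := by
  unfold DX dm
  refine Finset.sum_eq_zero fun b _ => ?_
  simp only [De_zero, norm_zero]
  rw [E3_const, zero_pow (by norm_num)]
  simp

lemma DX_succ (h : KR A T k c X) (a : Finset (Fin N) → ℂ) (κ : ℕ) {t : ℕ} (ht : t < T) (s : ℝ)
    (hs : 0 < s) :
    DX A a c κ (t + 1) ≤ (1 + 1 / s) * DX A a c κ t + (1 + s) * ER A a X c κ t := by
  have h1 : DX A a c κ (t + 1)
      = E3 (fun z => ∑ b', (if c (t + 1) b' < κ then
          ‖(A.W t *ᵥ D1 A a (fun i => star (te z i)) (te z) t) b'‖ ^ 2 else 0)) := by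
    unfold DX dm
    rw [E3_sum]
    refine Finset.sum_congr rfl fun b _ => ?_
    split_ifs
    · apply E3_congr
      intro z
      rw [De_succ]
    · rw [E3_const]
  have h2 : E3 (fun z => ∑ b', (if c (t + 1) b' < κ then
          ‖(A.W t *ᵥ D1 A a (fun i => star (te z i)) (te z) t) b'‖ ^ 2 else 0))
      ≤ E3 (fun z => ∑ b, if c t b + (if b ∈ X t then 1 else 0) < κ then
          ‖D1 A a (fun i => star (te z i)) (te z) t b‖ ^ 2 else 0) := by
    apply E3_mono
    intro z
    exact below (A.W t) (A.hW t) (c t) (c (t + 1)) (fun b => if b ∈ X t then 1 else 0)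
      (fun b b' hw => h.mono t ht b b' hw) κ _
  rw [h1]
  refine h2.trans ?_
  rw [E3_sum]
  unfold DX ER
  rw [Finset.mul_sum, Finset.mul_sum, ← Finset.sum_add_distrib]
  refine Finset.sum_le_sum fun b _ => ?_
  have hd := dm_nonneg A a t b
  have hs2 : 0 ≤ 1 + 1 / s := by positivity
  by_cases hc : c t b + (if b ∈ X t then 1 else 0) < κ
  · have hc' : c t b < κ := by omega
    simp only [hc, hc', if_true]
    exact stepE A a X t b (h.fac t ht b) s hs
  · simp only [hc, if_false]
    rw [E3_const]
    have : 0 ≤ (1 + 1 / s) * (if c t b < κ then dm A a t b else 0) := by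
      split_ifs
      · positivity
      · simp
    linarith

lemma lim_le {x y : ℝ} (hy : 0 ≤ y) (h : ∀ s : ℝ, 0 < s → x ≤ (1 + s) * y) : x ≤ y := by
  by_contra hcon
  push Not at hcon
  rcases hy.eq_or_lt with h0 | h0
  · have := h 1 one_pos
    rw [← h0] at this hcon
    linarith
  · have h1 := h ((x - y) / (2 * y)) (by
      apply div_pos
      · linarith
      · linarith)
    have h2 : (1 + (x - y) / (2 * y)) * y = y + (x - y) / 2 := by
      field_simp
    rw [h2] at h1
    linarith

lemma DX_le (h : KR A T k c X) (a : Finset (Fin N) → ℂ) (κ : ℕ) :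
    ∀ t ≤ T, DX A a c κ t ≤ t * ∑ s ∈ Finset.range t, ER A a X c κ s := by
  intro t
  induction t with
  | zero => intro _; rw [DX_zero]; simp
  | succ t ih =>
    intro ht
    rw [Finset.sum_range_succ]
    rcases Nat.eq_zero_or_pos t with h0 | h0
    · subst h0
      have h1 : DX A a c κ (0 + 1) ≤ ER A a X c κ 0 := by
        refine lim_le (ER_nonneg A a X c κ 0) fun s hs => ?_
        have := DX_succ h a κ (show 0 < T by omega) s hs
        rw [DX_zero, mul_zero] at this
        linarith
      simpa using h1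
    · have hc : (0 : ℝ) < t := by exact_mod_cast h0
      have h1 := DX_succ h a κ (show t < T by omega) t hc
      have h2 := ih (by omega)
      have h3 : (1 + 1 / (t : ℝ)) * DX A a c κ t
          ≤ (1 + 1 / (t : ℝ)) * (t * ∑ s ∈ Finset.range t, ER A a X c κ s) := by
        gcongr
      have h4 : (1 + 1 / (t : ℝ)) * (t * ∑ s ∈ Finset.range t, ER A a X c κ s)
          = (t + 1) * ∑ s ∈ Finset.range t, ER A a X c κ s := by
        field_simp
      push_cast
      linarith

/-- The constants. -/
noncomputable def KK (y : ℝ) : ℕ → ℝ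
  | 0 => 0
  | κ + 1 => 2 + 2 * y + 13 * y * KK y κ

lemma KK_nonneg {y : ℝ} (hy : 0 ≤ y) (κ : ℕ) : 0 ≤ KK y κ := by
  induction κ with
  | zero => exact le_rfl
  | succ κ ih =>
    show 0 ≤ 2 + 2 * y + 13 * y * KK y κ
    positivity

lemma KK_ge {y : ℝ} (hy : 0 ≤ y) (κ : ℕ) : 2 ≤ KK y (κ + 1) := by
  show 2 ≤ 2 + 2 * y + 13 * y * KK y κ
  have := KK_nonneg hy κ
  have : 0 ≤ 13 * y * KK y κ := by positivity
  linarith

lemma KK_mono {y y' : ℝ} (hy : 0 ≤ y) (h : y ≤ y') (κ : ℕ) : KK y κ ≤ KK y' κ := by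
  induction κ with
  | zero => exact le_rfl
  | succ κ ih =>
    show 2 + 2 * y + 13 * y * KK y κ ≤ 2 + 2 * y' + 13 * y' * KK y' κ
    have := KK_nonneg hy κ
    have hy' : 0 ≤ y' := hy.trans h
    gcongr

lemma KK_le {y : ℝ} (hy : 0 ≤ y) (κ : ℕ) : KK y (κ + 1) ≤ (2 + 2 * y) * (1 + 13 * y) ^ κ := by
  induction κ with
  | zero =>
    show 2 + 2 * y + 13 * y * 0 ≤ _
    simp
  | succ κ ih =>
    show 2 + 2 * y + 13 * y * KK y (κ + 1) ≤ _
    have h1 : 13 * y * KK y (κ + 1) ≤ 13 * y * ((2 + 2 * y) * (1 + 13 * y) ^ κ) := by gcongr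
    have h2 : (1 : ℝ) ≤ (1 + 13 * y) ^ κ := one_le_pow₀ (by linarith)
    have h3 : (2 + 2 * y) * 1 ≤ (2 + 2 * y) * (1 + 13 * y) ^ κ := by gcongr
    have h4 : (2 + 2 * y) * (1 + 13 * y) ^ (κ + 1)
        = (2 + 2 * y) * (1 + 13 * y) ^ κ + 13 * y * ((2 + 2 * y) * (1 + 13 * y) ^ κ) := by
      rw [pow_succ]; ring
    rw [h4]
    linarith

/-- The mass at the queries to `j` with a small counter. -/
noncomputable def xqc (A : Alg N B) (c : ℕ → B → ℕ) (κ : ℕ) (z : Fin N → Fin 3) (t : ℕ) (j : Fin N) :
    ℝ :=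
  ∑ b, if A.pos b = some j ∧ c t b < κ then ‖gv (cb A t b) (te z)‖ ^ 2 else 0

lemma nq_gvc (A : Alg N B) (c : ℕ → B → ℕ) (κ : ℕ) (a : Finset (Fin N) → ℂ) (z : Fin N → Fin 3)
    (t : ℕ) (j : Fin N) :
    ‖gv a (fun i => star (te z i))‖ ^ 2 * xqc A c κ z t j
      ≤ 2 * (∑ b, if A.pos b = some j then
          ‖dd a (cb A t b) (fun i => star (te z i)) (te z)‖ ^ 2 else 0)
        + 2 * (∑ b, if c t b < κ then
          ‖De A a (fun i => star (te z i)) (te z) t b‖ ^ 2 else 0) := by
  unfold xqc
  rw [Finset.mul_sum, Finset.mul_sum, Finset.mul_sum, ← Finset.sum_add_distrib]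
  refine Finset.sum_le_sum fun b _ => ?_
  by_cases h1 : A.pos b = some j
  · by_cases h2 : c t b < κ
    · simp only [h1, h2, and_self, if_true]
      have h3 : gv a (fun i => star (te z i)) * gv (cb A t b) (te z)
          = dd a (cb A t b) (fun i => star (te z i)) (te z)
            + De A a (fun i => star (te z i)) (te z) t b := by
        unfold De; ring
      have h4 := norm_add_sq_le (dd a (cb A t b) (fun i => star (te z i)) (te z))
        (De A a (fun i => star (te z i)) (te z) t b) 1 one_pos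
      rw [← h3, norm_mul, mul_pow] at h4
      linarith
    · simp only [h1, h2, and_false, if_true, if_false, mul_zero]
      positivity
  · simp only [h1, false_and, if_false, mul_zero]
    split_ifs
    · positivity
    · simp

lemma sum_qe (a : Finset (Fin N) → ℂ) (κ s : ℕ) :
    ∑ b, (if c s b < κ then qe A a s b else 0)
      = ∑ j, E3 (fun z => ‖gv (lk j a) (fun i => star (te z i))‖ ^ 2 * xqc A c κ z s j) := by
  unfold qe xqc
  have e1 : ∀ b, (if c s b < κ then ∑ j, (if A.pos b = some j then
      E3 (fun z => ‖gv (lk j a) (fun i => star (te z i))‖ ^ 2 * ‖gv (cb A s b) (te z)‖ ^ 2) else 0)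
        else 0)
      = ∑ j, (if A.pos b = some j ∧ c s b < κ then
      E3 (fun z => ‖gv (lk j a) (fun i => star (te z i))‖ ^ 2 * ‖gv (cb A s b) (te z)‖ ^ 2)
        else 0) := by
    intro b
    by_cases h2 : c s b < κ <;> simp [h2]
  rw [Finset.sum_congr rfl fun b _ => e1 b, Finset.sum_comm]
  refine Finset.sum_congr rfl fun j _ => ?_
  simp_rw [Finset.mul_sum]
  rw [E3_sum]
  refine Finset.sum_congr rfl fun b _ => ?_
  split_ifs
  · rfl
  · simp only [mul_zero]
    rw [E3_const]

/-- The multiplication bound with cube root phases, with counters. -/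
lemma mult3X (h : KR A T k c X) (τ : ℝ) (hτ0 : 0 ≤ τ) (hτ : ∀ t < T, ∀ j, mp A t j ≤ τ)
    (D : ℕ) (κ : ℕ) : ∀ a : Finset (Fin N) → ℂ, (∀ R, D < R.card → a R = 0) → ∀ t < T, ∀ j,
    E3 (fun z => ‖gv a (fun i => star (te z i))‖ ^ 2 * xqc A c κ z t j)
      ≤ KK ((t : ℝ) ^ 2 * D) κ * τ * ns a := by
  induction κ with
  | zero =>
    intro a ha t ht j
    have e : E3 (fun z => ‖gv a (fun i => star (te z i))‖ ^ 2 * xqc A c 0 z t j) = 0 := by
      rw [← E3_const (N := N) 0]
      apply E3_congr
      intro z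
      unfold xqc
      simp
    rw [e]
    show 0 ≤ 0 * τ * ns a
    simp
  | succ κ ih =>
    intro a ha t ht j
    have hns := ns_nonneg a
    have hKt : 0 ≤ KK ((t : ℝ) ^ 2 * D) κ := KK_nonneg (by positivity) κ
    have h1 : E3 (fun z => ‖gv a (fun i => star (te z i))‖ ^ 2 * xqc A c (κ + 1) z t j)
        ≤ E3 (fun z => 2 * (∑ b, if A.pos b = some j then
          ‖dd a (cb A t b) (fun i => star (te z i)) (te z)‖ ^ 2 else 0)
        + 2 * (∑ b, if c t b < κ + 1 then
          ‖De A a (fun i => star (te z i)) (te z) t b‖ ^ 2 else 0)) :=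
      E3_mono fun z => nq_gvc A c (κ + 1) a z t j
    rw [E3_add, E3_mul, E3_mul] at h1
    have h2 : E3 (fun z => ∑ b, if A.pos b = some j then
          ‖dd a (cb A t b) (fun i => star (te z i)) (te z)‖ ^ 2 else 0) ≤ τ * ns a := by
      rw [E3_sum]
      have e1 : ∀ b, E3 (fun z => if A.pos b = some j then
          ‖dd a (cb A t b) (fun i => star (te z i)) (te z)‖ ^ 2 else 0)
          ≤ if A.pos b = some j then ns a * ns (cb A t b) else 0 := by
        intro b
        split_ifs
        · exact dd_b_le _ _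
        · rw [E3_const]
      refine (Finset.sum_le_sum fun b _ => e1 b).trans ?_
      have e2 : ∑ b, (if A.pos b = some j then ns a * ns (cb A t b) else 0)
          = ns a * mp A t j := by
        unfold mp
        rw [Finset.mul_sum]
        refine Finset.sum_congr rfl fun b _ => ?_
        split_ifs <;> simp
      rw [e2]
      have := mul_le_mul_of_nonneg_left (hτ t ht j) hns
      linarith
    have h3 : E3 (fun z => ∑ b, if c t b < κ + 1 then
          ‖De A a (fun i => star (te z i)) (te z) t b‖ ^ 2 else 0) = DX A a c (κ + 1) t := by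
      unfold DX dm
      rw [E3_sum]
      refine Finset.sum_congr rfl fun b _ => ?_
      split_ifs
      · rfl
      · rw [E3_const]
    have h4 := DX_le h a (κ + 1) t ht.le
    have h5 : ∀ s ∈ Finset.range t, ER A a X c (κ + 1) s
        ≤ (1 + 13 / 2 * KK ((t : ℝ) ^ 2 * D) κ) * (D * ns a * τ) := by
      intro s hs
      have hs' : s < t := Finset.mem_range.1 hs
      have hsT : s < T := by omega
      have e1 : ER A a X c (κ + 1) s ≤ ∑ b, (lo A a s b
          + (5 * (if c s b < κ then qe A a s b else 0) + 3 * (if c s b < κ then lo A a s b else 0))) := by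
        unfold ER er
        refine Finset.sum_le_sum fun b _ => ?_
        have q1 := qe_nonneg A a s b
        have q2 := lo_nonneg A a s b
        by_cases hX : b ∈ X s
        · simp only [hX, if_true]
          by_cases hc : c s b < κ
          · have : c s b + 1 < κ + 1 := by omega
            simp only [this, hc, if_true]
            linarith
          · have : ¬ (c s b + 1 < κ + 1) := by omega
            simp only [this, hc, if_false]
            linarith
        · simp only [hX, if_false]
          have : 0 ≤ 5 * (if c s b < κ then qe A a s b else 0)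
              + 3 * (if c s b < κ then lo A a s b else 0) := by
            split_ifs
            · positivity
            · simp
          split_ifs at * <;> linarith
      rw [Finset.sum_add_distrib, Finset.sum_add_distrib, ← Finset.mul_sum, ← Finset.mul_sum,
        sum_qe] at e1
      have e2 := sum_lo A a s τ hτ0 (hτ s hsT) D ha
      have hst : (s : ℝ) ≤ t := by exact_mod_cast hs'.le
      have hK : KK ((s : ℝ) ^ 2 * D) κ ≤ KK ((t : ℝ) ^ 2 * D) κ :=
        KK_mono (by positivity) (by gcongr) κ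
      have e3 : ∑ j, E3 (fun z => ‖gv (lk j a) (fun i => star (te z i))‖ ^ 2 * xqc A c κ z s j)
          ≤ KK ((t : ℝ) ^ 2 * D) κ * (D * ns a * τ) := by
        have f1 : ∀ j, E3 (fun z => ‖gv (lk j a) (fun i => star (te z i))‖ ^ 2 * xqc A c κ z s j)
            ≤ KK ((t : ℝ) ^ 2 * D) κ * τ * ns (lk j a) := by
          intro j
          refine (ih (lk j a) (fun R hR => ?_) s hsT j).trans ?_
          · unfold lk
            split_ifs with hj
            · rfl
            · apply ha
              rw [Finset.card_insert_of_notMem hj]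
              omega
          · have := ns_nonneg (lk j a)
            gcongr
        refine (Finset.sum_le_sum fun j _ => f1 j).trans ?_
        rw [← Finset.mul_sum]
        have f2 := ns_lk_sum a D ha
        have f3 : 0 ≤ KK ((t : ℝ) ^ 2 * D) κ * τ := by positivity
        have f4 := mul_le_mul_of_nonneg_left f2 f3
        linarith
      have e4 : ∑ b, (if c s b < κ then lo A a s b else 0)
          ≤ 1 / 2 * KK ((t : ℝ) ^ 2 * D) κ * (D * ns a * τ) := by
        cases κ with
        | zero => simp [KK]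
        | succ κ =>
          have f1 : ∑ b, (if c s b < κ + 1 then lo A a s b else 0) ≤ ∑ b, lo A a s b := by
            refine Finset.sum_le_sum fun b _ => ?_
            have := lo_nonneg A a s b
            split_ifs <;> linarith
          have f2 := KK_ge (show 0 ≤ (t : ℝ) ^ 2 * D by positivity) κ
          have f3 : 0 ≤ D * ns a * τ := by positivity
          nlinarith
      linarith
    have h6 := Finset.sum_le_sum h5
    rw [Finset.sum_const, Finset.card_range, nsmul_eq_mul] at h6
    have h0 : (0 : ℝ) ≤ t := Nat.cast_nonneg t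
    have h7 := mul_le_mul_of_nonneg_left h6 h0
    rw [h3] at h1
    refine h1.trans ?_
    show _ ≤ (2 + 2 * ((t : ℝ) ^ 2 * D) + 13 * ((t : ℝ) ^ 2 * D) * KK ((t : ℝ) ^ 2 * D) κ)
      * τ * ns a
    have h8 : (2 + 2 * ((t : ℝ) ^ 2 * D) + 13 * ((t : ℝ) ^ 2 * D) * KK ((t : ℝ) ^ 2 * D) κ)
        * τ * ns a
        = 2 * (τ * ns a) + 2 * (t * (t * ((1 + 13 / 2 * KK ((t : ℝ) ^ 2 * D) κ)
          * (D * ns a * τ)))) := by ring
    rw [h8]
    linarith

/-- The multiplication bound with cube root phases. -/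
lemma mult3K (h : KR A T k c X) (τ : ℝ) (hτ0 : 0 ≤ τ) (hτ : ∀ t < T, ∀ j, mp A t j ≤ τ)
    (D : ℕ) (a : Finset (Fin N) → ℂ) (ha : ∀ R, D < R.card → a R = 0) {t : ℕ} (ht : t < T)
    (j : Fin N) :
    E3 (fun z => ‖gv a (te z)‖ ^ 2 * xq A z t j)
      ≤ (2 + 2 * ((t : ℝ) ^ 2 * D)) * (1 + 13 * ((t : ℝ) ^ 2 * D)) ^ k * τ * ns a := by
  set a' : Finset (Fin N) → ℂ := fun R => star (a R) with ha'
  have h1 := mult3X h τ hτ0 hτ D (k + 1) a' (fun R hR => by
    rw [ha']
    simp only
    rw [ha R hR, star_zero]) t ht j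
  have hns : ns a' = ns a := Alg.ns_star a
  rw [hns] at h1
  have e : E3 (fun z => ‖gv a' (fun i => star (te z i))‖ ^ 2 * xqc A c (k + 1) z t j)
      = E3 (fun z => ‖gv a (te z)‖ ^ 2 * xq A z t j) := by
    apply E3_congr
    intro z
    rw [ha', Alg.gv_star]
    congr 1
    unfold xqc xq
    refine Finset.sum_congr rfl fun b _ => ?_
    have : c t b < k + 1 := Nat.lt_succ_of_le (h.le t b)
    simp only [this, and_true]
  rw [e] at h1
  refine h1.trans ?_
  have := KK_le (show 0 ≤ (t : ℝ) ^ 2 * D by positivity) k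
  have := ns_nonneg a
  gcongr

end Pool.Agent.TH334.PR
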