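import Pool.Agent.TH334.PR.Tern

/-!
# Arbitrary reads, with cube root phases
-/

set_option autoImplicit false

namespace Pool.Agent.TH334.PR

open Finset Matrix Pool.Agent.H572R2 Pool.Agent.TH334.NR

variable {N : ℕ} {B : Type} [Fintype B] [DecidableEq B]

lemma off_lk' (j : Fin N) (a : Finset (Fin N) → ℂ) : off j (lk j a) = lk j a := by
  funext R
  unfold off lk
  split_ifs <;> rfl

lemma lk_lk' (j : Fin N) (a : Finset (Fin N) → ℂ) : lk j (lk j a) = fun _ => 0 := by
  funext R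
  unfold lk
  split_ifs with h1 h2
  · rfl
  · rfl
  · exact absurd (Finset.mem_insert_self j R) h2

lemma gv_inv (j : Fin N) (a : Finset (Fin N) → ℂ) {w w' : Fin N → ℂ}
    (hw : ∀ i, i ≠ j → w i = w' i) : gv (off j a) w = gv (off j a) w' := by
  unfold gv
  refine Finset.sum_congr rfl fun R _ => ?_
  by_cases hR : j ∈ R
  · simp [off, hR]
  · have e1 : mon w R = mon w' R :=
      Finset.prod_congr rfl fun i hi => hw i fun h => hR (h ▸ hi)
    rw [e1]

lemma dd_inv2 (j : Fin N) (a c : Finset (Fin N) → ℂ) {w w' u u' : Fin N → ℂ}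
    (hw : ∀ i, i ≠ j → w i = w' i) (hu : ∀ i, i ≠ j → u i = u' i) :
    dd (off j a) (off j c) w u = dd (off j a) (off j c) w' u' := by
  unfold dd
  refine Finset.sum_congr rfl fun R _ => Finset.sum_congr rfl fun S _ => ?_
  by_cases hR : j ∈ R
  · simp [off, hR]
  by_cases hS : j ∈ S
  · simp [off, hS]
  have e1 : mon w R = mon w' R :=
    Finset.prod_congr rfl fun i hi => hw i fun h => hR (h ▸ hi)
  have e2 : mon u S = mon u' S :=
    Finset.prod_congr rfl fun i hi => hu i fun h => hS (h ▸ hi)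
  rw [e1, e2]

/-- Independence of a coordinate. -/
def Ind (j : Fin N) (F : (Fin N → Fin 3) → ℂ) : Prop := ∀ z c, F (Function.update z j c) = F z

lemma te_upd (j : Fin N) (z : Fin N → Fin 3) (c : Fin 3) (i : Fin N) (hi : i ≠ j) :
    te (Function.update z j c) i = te z i := by
  unfold te
  rw [Function.update_of_ne hi]

lemma Ind_gv (j : Fin N) (a : Finset (Fin N) → ℂ) : Ind j (fun z => gv (off j a) (te z)) :=
  fun z c => gv_inv j a fun i hi => te_upd j z c i hi

lemma Ind_gvs (j : Fin N) (a : Finset (Fin N) → ℂ) :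
    Ind j (fun z => gv (off j a) (fun i => star (te z i))) :=
  fun z c => gv_inv j a fun i hi => by rw [te_upd j z c i hi]

lemma Ind_dd (j : Fin N) (a c : Finset (Fin N) → ℂ) :
    Ind j (fun z => dd (off j a) (off j c) (fun i => star (te z i)) (te z)) :=
  fun z k => dd_inv2 j a c (fun i hi => by rw [te_upd j z k i hi]) fun i hi => te_upd j z k i hi

/-- Parseval on the cube roots of unity. -/
lemma pars3 (f0 f1 f2 : ℂ) : ∑ k : Fin 3, ‖f0 + om ^ (k : ℕ) * f1 + star (om ^ (k : ℕ)) * f2‖ ^ 2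
    = 3 * (‖f0‖ ^ 2 + ‖f1‖ ^ 2 + ‖f2‖ ^ 2) := by
  have h := pars_gen (Ω := Fin 3) (K := Fin 3) (fun k a => c3 k a) 3 (fun k k' => by
    have := orth3 k k'
    rw [this]
    simp) (fun k : Fin 3 => if k = 0 then f0 else if k = 1 then f1 else f2)
  rw [Fin.sum_univ_three (fun k : Fin 3 =>
    ‖(if k = 0 then f0 else if k = 1 then f1 else f2 : ℂ)‖ ^ 2)] at h
  simp only [if_true, Fin.isValue, one_ne_zero, if_false] at h
  have e2 : ((2 : Fin 3) = 0) = False := by simp
  have e3 : ((2 : Fin 3) = 1) = False := by simp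
  simp only [e2, e3, if_false] at h
  rw [← h]
  refine Finset.sum_congr rfl fun a _ => ?_
  congr 2
  rw [Fin.sum_univ_three]
  simp only [c3, Fin.isValue, if_true, one_ne_zero, if_false, e2, e3]
  rw [om_pow_star]
  have e4 : ((0 : Fin 3) : ℕ) = 0 := rfl
  have e5 : ((1 : Fin 3) : ℕ) = 1 := rfl
  have e6 : ((2 : Fin 3) : ℕ) = 2 := rfl
  rw [e4, e5, e6, zero_mul, one_mul, pow_zero, one_mul]

/-- Parseval in one coordinate. -/
lemma par_j (j : Fin N) (F0 F1 F2 : (Fin N → Fin 3) → ℂ) (h0 : Ind j F0) (h1 : Ind j F1)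
    (h2 : Ind j F2) :
    E3 (fun z => ‖F0 z + te z j * F1 z + star (te z j) * F2 z‖ ^ 2)
      = E3 (fun z => ‖F0 z‖ ^ 2 + ‖F1 z‖ ^ 2 + ‖F2 z‖ ^ 2) := by
  have e1 : ∀ c : Fin 3, E3 (fun z => ‖F0 z + te z j * F1 z + star (te z j) * F2 z‖ ^ 2)
      = E3 (fun z => ‖F0 z + om ^ ((z j + c : Fin 3) : ℕ) * F1 z
        + star (om ^ ((z j + c : Fin 3) : ℕ)) * F2 z‖ ^ 2) := by
    intro c
    rw [← E3_rot j c]
    apply E3_congr
    intro z
    rw [h0 z _, h1 z _, h2 z _]
    have : te (Function.update z j (z j + c)) j = om ^ ((z j + c : Fin 3) : ℕ) := by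
      unfold te
      rw [Function.update_self]
    rw [this]
  have e2 : 3 * E3 (fun z => ‖F0 z + te z j * F1 z + star (te z j) * F2 z‖ ^ 2)
      = 3 * E3 (fun z => ‖F0 z‖ ^ 2 + ‖F1 z‖ ^ 2 + ‖F2 z‖ ^ 2) := by
    have e3 : ∑ c : Fin 3, E3 (fun z => ‖F0 z + om ^ ((z j + c : Fin 3) : ℕ) * F1 z
        + star (om ^ ((z j + c : Fin 3) : ℕ)) * F2 z‖ ^ 2)
        = 3 * E3 (fun z => ‖F0 z + te z j * F1 z + star (te z j) * F2 z‖ ^ 2) := by
      rw [Finset.sum_congr rfl fun c _ => (e1 c).symm]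
      simp
    rw [← e3, ← E3_sum, ← E3_mul]
    apply E3_congr
    intro z
    rw [← pars3]
    exact Equiv.sum_comp (Equiv.addLeft (z j))
      (fun k : Fin 3 => ‖F0 z + om ^ (k : ℕ) * F1 z + star (om ^ (k : ℕ)) * F2 z‖ ^ 2)
  linarith

lemma te_mul_star (z : Fin N → Fin 3) (j : Fin N) : te z j * star (te z j) = 1 := by
  have h := norm_te z j
  have e : te z j * star (te z j) = ((‖te z j‖ ^ 2 : ℝ) : ℂ) := by
    rw [Complex.star_def, Complex.mul_conj']
    push_cast
    rfl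
  rw [e, h]
  norm_num

lemma four_sq (a b c d : ℂ) :
    ‖a - b - c + d‖ ^ 2 ≤ 4 * (‖a‖ ^ 2 + ‖b‖ ^ 2 + ‖c‖ ^ 2 + ‖d‖ ^ 2) := by
  have h1 := norm_add_sq_le (a - b) (-c + d) 1 one_pos
  have h2 := norm_add_sq_le a (-b) 1 one_pos
  have h3 := norm_add_sq_le (-c) d 1 one_pos
  rw [norm_neg] at h2 h3
  have e1 : a - b + (-c + d) = a - b - c + d := by ring
  have e2 : a + -b = a - b := by ring
  rw [e1] at h1
  rw [e2] at h2
  linarith

/-- The difference after an arbitrary read. -/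
lemma exc_b (a c : Finset (Fin N) → ℂ) (j : Fin N) (s : ℝ) (hs : 0 < s) :
    E3 (fun z => ‖gv a (fun i => star (te z i)) * gv (tg {j} c) (te z)
      - dd a (tg {j} c) (fun i => star (te z i)) (te z)‖ ^ 2)
    ≤ (1 + 1 / s) * E3 (fun z => ‖gv a (fun i => star (te z i)) * gv c (te z)
        - dd a c (fun i => star (te z i)) (te z)‖ ^ 2)
      + (1 + s) * (5 * E3 (fun z => ‖gv (lk j a) (fun i => star (te z i))‖ ^ 2
            * ‖gv c (te z)‖ ^ 2)
          + 4 * E3 (fun z => ‖dd (lk j a) c (fun i => star (te z i)) (te z)‖ ^ 2)) := by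
  set g0 : (Fin N → Fin 3) → ℂ := fun z => gv (off j a) (fun i => star (te z i)) with hg0
  set g1 : (Fin N → Fin 3) → ℂ := fun z => gv (lk j a) (fun i => star (te z i)) with hg1
  set C0 : (Fin N → Fin 3) → ℂ := fun z => gv (off j c) (te z) with hC0
  set C1 : (Fin N → Fin 3) → ℂ := fun z => gv (lk j c) (te z) with hC1
  set n00 : (Fin N → Fin 3) → ℂ :=
    fun z => dd (off j a) (off j c) (fun i => star (te z i)) (te z) with hn00
  set n01 : (Fin N → Fin 3) → ℂ :=
    fun z => dd (off j a) (lk j c) (fun i => star (te z i)) (te z) with hn01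
  set n10 : (Fin N → Fin 3) → ℂ :=
    fun z => dd (lk j a) (off j c) (fun i => star (te z i)) (te z) with hn10
  set n11 : (Fin N → Fin 3) → ℂ :=
    fun z => dd (lk j a) (lk j c) (fun i => star (te z i)) (te z) with hn11
  have ig0 : Ind j g0 := Ind_gvs j a
  have ig1 : Ind j g1 := by
    have := Ind_gvs j (lk j a)
    rwa [off_lk'] at this
  have iC0 : Ind j C0 := Ind_gv j c
  have iC1 : Ind j C1 := by
    have := Ind_gv j (lk j c)
    rwa [off_lk'] at this
  have i00 : Ind j n00 := Ind_dd j a c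
  have i01 : Ind j n01 := by
    have := Ind_dd j a (lk j c)
    rwa [off_lk'] at this
  have i10 : Ind j n10 := by
    have := Ind_dd j (lk j a) c
    rwa [off_lk'] at this
  have i11 : Ind j n11 := by
    have := Ind_dd j (lk j a) (lk j c)
    rwa [off_lk', off_lk'] at this
  -- the three Fourier coefficients before and after
  have e1 : E3 (fun z => ‖gv a (fun i => star (te z i)) * gv c (te z)
        - dd a c (fun i => star (te z i)) (te z)‖ ^ 2)
      = E3 (fun z => ‖g0 z * C0 z + g1 z * C1 z - n00 z‖ ^ 2 + ‖g0 z * C1 z - n01 z‖ ^ 2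
        + ‖g1 z * C0 z - n10 z‖ ^ 2) := by
    rw [← par_j j (fun z => g0 z * C0 z + g1 z * C1 z - n00 z) (fun z => g0 z * C1 z - n01 z)
      (fun z => g1 z * C0 z - n10 z)
      (fun z k => by simp only [ig0 z k, iC0 z k, ig1 z k, iC1 z k, i00 z k])
      (fun z k => by simp only [ig0 z k, iC1 z k, i01 z k])
      (fun z k => by simp only [ig1 z k, iC0 z k, i10 z k])]
    apply E3_congr
    intro z
    congr 2
    rw [gv_split j a, gv_split j c, dd_split j a c]
    show (g0 z + star (te z j) * g1 z) * (C0 z + te z j * C1 z)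
      - (n00 z + te z j * n01 z + star (te z j) * n10 z) = _
    linear_combination g1 z * C1 z * te_mul_star z j
  have e2 : E3 (fun z => ‖gv a (fun i => star (te z i)) * gv (tg {j} c) (te z)
        - dd a (tg {j} c) (fun i => star (te z i)) (te z)‖ ^ 2)
      = E3 (fun z => ‖g0 z * C1 z + g1 z * C0 z - n01 z‖ ^ 2 + ‖g0 z * C0 z - n00 z‖ ^ 2
        + ‖g1 z * C1 z - n11 z‖ ^ 2) := by
    rw [← par_j j (fun z => g0 z * C1 z + g1 z * C0 z - n01 z) (fun z => g0 z * C0 z - n00 z)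
      (fun z => g1 z * C1 z - n11 z)
      (fun z k => by simp only [ig0 z k, iC0 z k, ig1 z k, iC1 z k, i01 z k])
      (fun z k => by simp only [ig0 z k, iC0 z k, i00 z k])
      (fun z k => by simp only [ig1 z k, iC1 z k, i11 z k])]
    apply E3_congr
    intro z
    congr 2
    rw [gv_split j a, gv_split j (tg {j} c), dd_split j a (tg {j} c), off_tg, lk_tg]
    show (g0 z + star (te z j) * g1 z) * (C1 z + te z j * C0 z)
      - (n01 z + te z j * n00 z + star (te z j) * n11 z) = _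
    linear_combination g1 z * C0 z * te_mul_star z j
  have e3 : E3 (fun z => ‖gv (lk j a) (fun i => star (te z i))‖ ^ 2 * ‖gv c (te z)‖ ^ 2)
      = E3 (fun z => ‖g1 z * C0 z‖ ^ 2 + ‖g1 z * C1 z‖ ^ 2 + ‖(0 : ℂ)‖ ^ 2) := by
    rw [← par_j j (fun z => g1 z * C0 z) (fun z => g1 z * C1 z) (fun _ => 0)
      (fun z k => by simp only [ig1 z k, iC0 z k])
      (fun z k => by simp only [ig1 z k, iC1 z k]) (fun z k => rfl)]
    apply E3_congr
    intro z
    rw [← mul_pow, ← norm_mul]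
    congr 2
    rw [gv_split j c]
    show g1 z * (C0 z + te z j * C1 z) = _
    ring
  have e4 : E3 (fun z => ‖dd (lk j a) c (fun i => star (te z i)) (te z)‖ ^ 2)
      = E3 (fun z => ‖n10 z‖ ^ 2 + ‖n11 z‖ ^ 2 + ‖(0 : ℂ)‖ ^ 2) := by
    rw [← par_j j n10 n11 (fun _ => 0) i10 i11 (fun z k => rfl)]
    apply E3_congr
    intro z
    congr 2
    rw [dd_split j (lk j a) c, off_lk', lk_lk']
    have : dd (fun _ => 0) (off j c) (fun i => star (te z i)) (te z) = 0 := by
      unfold dd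
      refine Finset.sum_eq_zero fun R _ => Finset.sum_eq_zero fun S _ => ?_
      split_ifs <;> simp
    rw [this]
  rw [e1, e2, e3, e4, ← E3_mul 5, ← E3_mul 4, ← E3_add, ← E3_mul, ← E3_mul, ← E3_add]
  apply E3_mono
  intro z
  have k1 := norm_add_sq_le (g0 z * C1 z - n01 z) (g1 z * C0 z) s hs
  have k2 := norm_add_sq_le (g0 z * C0 z + g1 z * C1 z - n00 z) (-(g1 z * C1 z)) s hs
  have k3 := norm_add_sq_le (g1 z * C0 z - n10 z)
    (g1 z * C1 z - n11 z - g1 z * C0 z + n10 z) s hs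
  have k4 := four_sq (g1 z * C1 z) (n11 z) (g1 z * C0 z) (n10 z)
  have q1 : g0 z * C1 z - n01 z + g1 z * C0 z = g0 z * C1 z + g1 z * C0 z - n01 z := by ring
  have q2 : g0 z * C0 z + g1 z * C1 z - n00 z + -(g1 z * C1 z) = g0 z * C0 z - n00 z := by ring
  have q3 : g1 z * C0 z - n10 z + (g1 z * C1 z - n11 z - g1 z * C0 z + n10 z)
      = g1 z * C1 z - n11 z := by ring
  rw [q1] at k1
  rw [q2, norm_neg] at k2
  rw [q3] at k3
  have hs1 : 0 < 1 + s := by linarith
  have k5 := mul_le_mul_of_nonneg_left k4 hs1.le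
  simp only [norm_zero]
  nlinarith [k1, k2, k3, k5]

end Pool.Agent.TH334.PR
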