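import Pool.Agent.TH334.NR.Post
import Pool.Agent.TH334.NR.Tree

/-!
# Functions of several algorithms with a light lemma
-/

set_option autoImplicit false

namespace Pool.Agent.TH334.PR

open Finset Matrix Pool.Agent.H572R2 Pool.Agent.TH334.NR

variable {N : ℕ} {B : Type} [Fintype B] [DecidableEq B]

/-- The light lemma with constant `C`: at a node of the restriction tree at which all the average
query magnitudes are at most `τ`, the variance is at most `128 C T ^ 8 τ`. -/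
def LightN (A : Alg N B) (T : ℕ) (C : ℝ) : Prop :=
  ∀ τ : ℝ, 0 ≤ τ → ∀ (Ac : Finset B) (S : Finset (Fin N)) (a : Fin N → Bool),
    (∀ t < T, ∀ k ∈ Sᶜ, Ex S a (fun x => A.evo.mag t k x) ≤ τ) →
    Ex S a (fun x => (A.ap T Ac x) ^ 2) - (Ex S a (A.ap T Ac)) ^ 2 ≤ 128 * C * (T : ℝ) ^ 8 * τ

section Family

variable {r : ℕ} (A : Fin r → Alg N B) (Ac : Fin r → Finset B)

/-- The variance at a light node. -/
lemma fam_nodeC {T : ℕ} (C : ℝ) (hC : 1 ≤ C) (hA : ∀ κ, LightN (A κ) T C) (f : (Fin N → Bool) → ℝ) (L : ℝ)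
    (hL : ∀ x y, |f x - f y|
      ≤ L * ∑ κ, |(A κ).ap T (Ac κ) x - (A κ).ap T (Ac κ) y|)
    (θ : ℝ) (hθ0 : 0 ≤ θ) (S : Finset (Fin N)) (a : Fin N → Bool)
    (hl : ∀ s < r * T, ∀ k ∈ Sᶜ, Ex S a (fm A T s k) ≤ θ) :
    Ex S a (fun x => (f x) ^ 2) - (Ex S a f) ^ 2 ≤ 128 * C * L ^ 2 * (r : ℝ) ^ 2 * (T : ℝ) ^ 8 * θ := by
  have e1 : Ex S a (fun x => (f x) ^ 2) - (Ex S a f) ^ 2
      = Cv (fun x => f (mix S a x)) (fun x => f (mix S a x)) := by
    unfold Cv Ex
    simp only [sq]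
  rw [e1]
  have h1 := fam_var (fun x => f (mix S a x)) (fun κ x => (A κ).ap T (Ac κ) (mix S a x)) L
    (fun x y => hL _ _) (128 * C * (T : ℝ) ^ 8 * θ) (fun κ => by
      have h2 := hA κ θ hθ0 (Ac κ) S a (fun t ht k hk => by
        have h3 := hl (κ * T + t) (by
          have := κ.2
          calc (κ : ℕ) * T + t < κ * T + T := by omega
            _ = (κ + 1) * T := by ring
            _ ≤ r * T := Nat.mul_le_mul_right _ (by omega)) k hk
        refine (le_of_eq ?_).trans h3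
        unfold Ex
        apply EE_congr
        intro x
        exact (fm_eq A κ ht k _).symm)
      refine (le_of_eq ?_).trans h2
      unfold Cv Ex
      simp only [sq])
  refine h1.trans (le_of_eq ?_)
  ring

/-- Influences, for functions of low degree. -/
theorem fam_linC {T : ℕ} (C : ℝ) (hC : 1 ≤ C) (hA : ∀ κ, LightN (A κ) T C) (f : (Fin N → Bool) → ℝ) (D : ℕ)
    (hdeg : PD D (fun x => ((f x : ℝ) : ℂ))) (L : ℝ) (hL0 : 0 < L)
    (hL : ∀ x y, |f x - f y|
      ≤ L * ∑ κ, |(A κ).ap T (Ac κ) x - (A κ).ap T (Ac κ) y|)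
    (I : ℝ) (hI0 : 0 ≤ I) (hI : ∀ l, Real.sqrt (If l f) ≤ I) :
    (Cv f f) ^ 2 ≤ 2048 * C * D * L ^ 2 * (r : ℝ) ^ 3 * (T : ℝ) ^ 9 * I ^ 2 := by
  rcases (Cv_self_nonneg f).eq_or_lt with h0 | hV0
  · rw [← h0, zero_pow (by norm_num)]
    positivity
  obtain ⟨hr, hT⟩ := fam_pos A Ac f L hL hV0
  have hr1 : (1 : ℝ) ≤ r := by exact_mod_cast hr
  have hT1 : (1 : ℝ) ≤ T := by exact_mod_cast hT
  have hTI := TIf_le_var D f hdeg
  set V := Cv f f with hV
  have hD0 : D ≠ 0 := by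
    rintro rfl
    have h1 : TIf f ≤ 0 := by simpa using hTI
    have h2 : ∀ i x, f (flp i x) = f x := by
      intro i x
      have h3 : If i f = 0 := by
        have := Finset.single_le_sum (f := fun i => If i f) (fun i _ => If_nonneg i f)
          (Finset.mem_univ i)
        have h4 := If_nonneg i f
        have : If i f ≤ TIf f := this
        linarith
      by_contra hne
      have h5 : 0 < If i f := by
        unfold If EE
        apply div_pos _ (by positivity)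
        refine Finset.sum_pos' (fun x _ => sq_nonneg _) ⟨x, Finset.mem_univ _, ?_⟩
        have : (f x - f (flp i x)) / 2 ≠ 0 := by
          intro h6
          apply hne
          linarith
        positivity
      linarith
    have h3 := const_of_inv f h2
    have h4 : Cv f f = 0 := by
      rw [Cv_pair]
      have : EE (fun x => EE (fun y => (f x - f y) ^ 2)) = 0 := by
        rw [← EE_const (N := N) 0]
        apply EE_congr; intro x
        rw [← EE_const (N := N) 0]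
        apply EE_congr; intro y
        rw [h3 x y]; simp
      rw [this]; simp
    linarith
  have hD1 : (0 : ℝ) < D := by exact_mod_cast Nat.pos_of_ne_zero hD0
  set θ : ℝ := V / (512 * C * L ^ 2 * (r : ℝ) ^ 2 * (T : ℝ) ^ 8) with hθ
  have hθ0 : 0 < θ := by positivity
  have h := osss (m := fm A T) (fm_nonneg A T) (r * T) (r * T) (by positivity) (fm_AA A T) f θ hθ0 V
    hV hV0 (fun S a hS => by
      refine (fam_nodeC A Ac C hC hA f L hL θ hθ0.le S a hS).trans (le_of_eq ?_)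
      rw [hθ]
      field_simp
      norm_num) (D * V) (by positivity) hTI I hI0 hI
  have h2 : V ^ 2 * θ = V * V ^ 2 / (512 * C * L ^ 2 * (r : ℝ) ^ 2 * (T : ℝ) ^ 8) := by
    rw [hθ]; ring
  rw [h2, div_le_iff₀ (by positivity)] at h
  have h3 : V * (V ^ 2) ≤ V * (2048 * C * D * L ^ 2 * (r : ℝ) ^ 3 * (T : ℝ) ^ 9 * I ^ 2) := by
    refine h.trans (le_of_eq ?_)
    ring
  exact le_of_mul_le_mul_left h3 hV0

/-- Bit fixing. -/
theorem fam_fixC {T : ℕ} (C : ℝ) (hC : 1 ≤ C) (hA : ∀ κ, LightN (A κ) T C) (f : (Fin N → Bool) → ℝ) (hf0 : ∀ x, 0 ≤ f x)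
    (hf1 : ∀ x, f x ≤ 1) (L : ℝ) (hL0 : 0 < L)
    (hL : ∀ x y, |f x - f y|
      ≤ L * ∑ κ, |(A κ).ap T (Ac κ) x - (A κ).ap T (Ac κ) y|)
    (V : ℝ) (hV : V = EE (fun x => (f x - EE f) ^ 2)) (hV0 : 0 < V) :
    ∃ (S : Finset (Fin N)) (a : Fin N → Bool),
      (S.card : ℝ) ≤ 2048 * C * L ^ 2 * (r : ℝ) ^ 3 * (T : ℝ) ^ 9 / V ^ 2 ∧
      V / 2 ≤ (Ex S a f - EE f) ^ 2 := by
  have hVC : V = Cv f f := by
    rw [hV, Cv_eq]
    simp only [sq]
  obtain ⟨hr, hT⟩ := fam_pos A Ac f L hL (by rw [← hVC]; exact hV0)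
  have hr1 : (1 : ℝ) ≤ r := by exact_mod_cast hr
  have hT1 : (1 : ℝ) ≤ T := by exact_mod_cast hT
  set θ : ℝ := V / (512 * C * L ^ 2 * (r : ℝ) ^ 2 * (T : ℝ) ^ 8) with hθ
  have hθ0 : 0 < θ := by positivity
  set l : ℝ := θ * V / (4 * (r * T)) with hl
  have hl0 : 0 < l := by positivity
  obtain ⟨S, a, h⟩ := leaf' (m := fm A T) (fm_nonneg A T) (r * T) f (EE f) (V / 4) l θ
    hl0.le hθ0 (fun S a hS => by
      refine (fam_nodeC A Ac C hC hA f L hL θ hθ0.le S a hS).trans (le_of_eq ?_)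
      rw [hθ]
      field_simp
      norm_num) _ ∅ (fun _ => true) rfl
  rw [Ex_empty, ← hV, Finset.card_empty] at h
  have hA' := fm_AA A T (fun _ : Fin N => true)
  have hlA : (l / θ) * AA (fm A T) (r * T) ∅ (fun _ => true) ≤ V / 4 := by
    calc (l / θ) * AA (fm A T) (r * T) ∅ (fun _ => true) ≤ (l / θ) * (r * T) := by gcongr
      _ = V / 4 := by rw [hl]; field_simp
  have hdev : V / 2 + l * S.card ≤ (Ex S a f - EE f) ^ 2 := by
    push_cast at h
    linarith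
  have hlS : 0 ≤ l * S.card := by positivity
  refine ⟨S, a, ?_, by linarith⟩
  have hdev1 : (Ex S a f - EE f) ^ 2 ≤ 1 := by
    have e0 : 0 ≤ EE f := EE_nonneg hf0
    have e1 : EE f ≤ 1 := (EE_mono hf1).trans (le_of_eq (EE_const 1))
    have e2 : 0 ≤ Ex S a f := EE_nonneg fun x => hf0 _
    have e3 : Ex S a f ≤ 1 := (EE_mono fun x => hf1 _).trans (le_of_eq (EE_const 1))
    nlinarith
  have hS : l * S.card ≤ 1 := by linarith
  have hfin : 1 / l = 2048 * C * L ^ 2 * (r : ℝ) ^ 3 * (T : ℝ) ^ 9 / V ^ 2 := by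
    rw [hl, hθ]
    field_simp
    norm_num
  rw [← hfin, le_div_iff₀ hl0]
  linarith

/-- Classical simulation of a function of a family. -/
theorem fam_simC {T : ℕ} (C : ℝ) (hC : 1 ≤ C) (hA : ∀ κ, LightN (A κ) T C) (f : (Fin N → Bool) → ℝ) (L : ℝ) (hL1 : 1 ≤ L)
    (hL : ∀ x y, |f x - f y|
      ≤ L * ∑ κ, |(A κ).ap T (Ac κ) x - (A κ).ap T (Ac κ) y|)
    (ε δ : ℝ) (hε : 0 < ε) (hε1 : ε ≤ 1) (hδ : 0 < δ) (hδ1 : δ ≤ 1) :
    ∃ e : DTree N, (e.depth : ℝ) ≤ 768 * C * L ^ 2 * (r : ℝ) ^ 3 * (T : ℝ) ^ 9 / (ε ^ 2 * δ ^ 2) ∧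
      ((Finset.univ.filter (fun x : Fin N → Bool => ε < |f x - e.eval x|)).card : ℝ)
        ≤ δ * 2 ^ N := by
  by_cases hcon : 1 ≤ r ∧ 1 ≤ T
  swap
  · have h1 : ∀ x y, f x = f y := by
      intro x y
      have h2 := hL x y
      have h3 : ∑ κ, |(A κ).ap T (Ac κ) x - (A κ).ap T (Ac κ) y| = 0 := by
        by_cases hr : r = 0
        · subst hr; simp
        · have hT : T = 0 := by omega
          subst hT
          refine Finset.sum_eq_zero fun κ _ => ?_
          have : (A κ).ap 0 (Ac κ) x = (A κ).ap 0 (Ac κ) y := rfl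
          rw [this]; simp
      rw [h3, mul_zero] at h2
      have := abs_nonpos_iff.1 h2
      linarith
    refine ⟨DTree.leaf (f fun _ => true), ?_, ?_⟩
    · show ((0 : ℕ) : ℝ) ≤ _
      push_cast
      have : (0 : ℝ) ≤ L := by linarith
      positivity
    · have : Finset.univ.filter (fun x : Fin N → Bool =>
          ε < |f x - (DTree.leaf (f fun _ => true) : DTree N).eval x|) = ∅ := by
        ext x
        simp only [Finset.mem_filter, Finset.mem_univ, true_and, Finset.notMem_empty, iff_false,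
          not_lt]
        show |f x - f fun _ => true| ≤ ε
        rw [h1 x (fun _ => true)]
        simp [hε.le]
      rw [this]
      simp only [Finset.card_empty, Nat.cast_zero]
      positivity
  obtain ⟨hr, hT⟩ := hcon
  have hr1 : (1 : ℝ) ≤ r := by exact_mod_cast hr
  have hT1 : (1 : ℝ) ≤ T := by exact_mod_cast hT
  have hL0 : 0 < L := by linarith
  set θ : ℝ := ε ^ 2 * δ / (256 * C * L ^ 2 * (r : ℝ) ^ 2 * (T : ℝ) ^ 8) with hθ
  have hθ0 : 0 < θ := by positivity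
  have hθ1 : θ ≤ 1 := by
    rw [hθ, div_le_one (by positivity)]
    have e1 : ε ^ 2 * δ ≤ 1 := mul_le_one₀ (pow_le_one₀ hε.le hε1) hδ.le hδ1
    have e2 : (1 : ℝ) ≤ L ^ 2 := one_le_pow₀ hL1
    have e3 : (1 : ℝ) ≤ (r : ℝ) ^ 2 := one_le_pow₀ hr1
    have e4 : (1 : ℝ) ≤ (T : ℝ) ^ 8 := one_le_pow₀ hT1
    calc ε ^ 2 * δ ≤ 256 * 1 * 1 * 1 * 1 := by linarith
      _ ≤ _ := by gcongr
  have h := sim (m := fm A T) (fm_nonneg A T) (r * T) (r * T) (by positivity) (fm_AA A T) f ε δ θ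
    hε hδ hθ0 (by
      have e1 : θ * δ ≤ 1 := mul_le_one₀ hθ1 hδ.le hδ1
      have e2 : (1 : ℝ) ≤ r * T := one_le_mul_of_one_le_of_one_le hr1 hT1
      linarith) (fun S a hS => by
      refine (fam_nodeC A Ac C hC hA f L hL θ hθ0.le S a hS).trans (le_of_eq ?_)
      rw [hθ]
      field_simp
      norm_num)
  obtain ⟨e, he1, he2⟩ := h
  refine ⟨e, he1.trans (le_of_eq ?_), he2⟩
  rw [hθ]
  field_simp
  norm_num

/-- Influences of a function close to a Lipschitz function of a family. -/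
theorem fam_closeC {T : ℕ} (C : ℝ) (hC : 1 ≤ C) (hA : ∀ κ, LightN (A κ) T C) (f g : (Fin N → Bool) → ℝ) (L : ℝ)
    (hL0 : 0 < L)
    (hL : ∀ x y, |g x - g y|
      ≤ L * ∑ κ, |(A κ).ap T (Ac κ) x - (A κ).ap T (Ac κ) y|)
    (hV0 : 0 < Cv f f) (hclose : EE (fun x => (f x - g x) ^ 2) ≤ Cv f f / 64)
    (I : ℝ) (hI0 : 0 ≤ I) (hI : ∀ l, Real.sqrt (If l f) ≤ I) :
    (Cv f f) ^ 3 ≤ 3072 * C * L ^ 4 * (r : ℝ) ^ 5 * (T : ℝ) ^ 10 * I ^ 2 := by
  set V := Cv f f with hV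
  have hg0 : 0 < Cv g g := by
    by_contra hcon
    have h0 : Cv g g = 0 := le_antisymm (not_lt.1 hcon) (Cv_self_nonneg g)
    have e2 := abs_Cv_le g f
    rw [h0, Real.sqrt_zero, zero_mul] at e2
    have e3 : Cv g f = 0 := abs_nonpos_iff.1 e2
    have e1 : Cv f f = Cv g f + Cv (fun x => f x - g x) f := by
      unfold Cv
      have a1 : EE (fun x => (f x - g x) * f x) = EE (fun x => f x * f x) - EE (fun x => g x * f x) := by
        rw [← EE_sub]; apply EE_congr; intro x; ring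
      rw [a1, EE_sub f g]
      ring
    have e4 := abs_Cv_le (fun x => f x - g x) f
    have e5 : Cv (fun x => f x - g x) (fun x => f x - g x) ≤ V / 64 := by
      refine le_trans ?_ hclose
      unfold Cv
      have : EE (fun x => (f x - g x) * (f x - g x)) = EE (fun x => (f x - g x) ^ 2) := by
        apply EE_congr; intro x; ring
      rw [this]
      nlinarith [mul_self_nonneg (EE (fun x => f x - g x))]
    have e6 : Real.sqrt (Cv (fun x => f x - g x) (fun x => f x - g x)) * Real.sqrt (Cv f f)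
        ≤ Real.sqrt (V / 64) * Real.sqrt V :=
      mul_le_mul_of_nonneg_right (Real.sqrt_le_sqrt e5) (Real.sqrt_nonneg _)
    have e7 : Real.sqrt (V / 64) * Real.sqrt V = V / 8 := by
      have e : V / 64 = (Real.sqrt V / 8) ^ 2 := by
        rw [div_pow, Real.sq_sqrt hV0.le]; norm_num
      have h1 : Real.sqrt (V / 64) = Real.sqrt V / 8 := by
        rw [e, Real.sqrt_sq (by positivity)]
      rw [h1, div_mul_eq_mul_div, Real.mul_self_sqrt hV0.le]
    have e8 := le_abs_self (Cv (fun x => f x - g x) f)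
    rw [e3, zero_add, ← hV] at e1
    linarith
  obtain ⟨hr, hT⟩ := fam_pos A Ac g L hL hg0
  have hr1 : (1 : ℝ) ≤ r := by exact_mod_cast hr
  have hT1 : (1 : ℝ) ≤ T := by exact_mod_cast hT
  set θ : ℝ := V / (2048 * C * L ^ 2 * (r : ℝ) ^ 2 * (T : ℝ) ^ 8) with hθ
  have hθ0 : 0 < θ := by positivity
  have hTI : TIf g ≤ L ^ 2 * (r : ℝ) ^ 2 * T / 2 := by
    refine (fam_TI g (fun κ x => (A κ).ap T (Ac κ) x) L hL).trans ?_
    have h1 : ∀ κ, TIf (fun x => (A κ).ap T (Ac κ) x) ≤ (T : ℝ) / 2 := by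
      intro κ
      have h2 := TIf_le_var (2 * T) (fun x => (A κ).ap T (Ac κ) x) ((A κ).PD_ap T (Ac κ))
      have h3 := Cv_le_quarter (fun x => (A κ).ap T (Ac κ) x) ((A κ).ap_nonneg T (Ac κ))
        ((A κ).ap_le_one T (Ac κ))
      have h4 : ((2 * T : ℕ) : ℝ) * Cv (fun x => (A κ).ap T (Ac κ) x) (fun x => (A κ).ap T (Ac κ) x)
          ≤ ((2 * T : ℕ) : ℝ) * (1 / 4) := by gcongr
      refine h2.trans (h4.trans (le_of_eq ?_))
      push_cast; ring
    have h5 : ∑ κ, TIf (fun x => (A κ).ap T (Ac κ) x) ≤ ∑ _κ : Fin r, (T : ℝ) / 2 :=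
      Finset.sum_le_sum fun κ _ => h1 κ
    rw [Finset.sum_const, Finset.card_univ, Fintype.card_fin, nsmul_eq_mul] at h5
    calc L ^ 2 * r * ∑ κ, TIf (fun x => (A κ).ap T (Ac κ) x)
        ≤ L ^ 2 * r * (r * ((T : ℝ) / 2)) := by gcongr
      _ = _ := by ring
  have h := osss2 (m := fm A T) (fm_nonneg A T) (r * T) (r * T) (by positivity) (fm_AA A T) g f
    θ hθ0 V hV hV0 hclose (fun S a hS => by
      refine (fam_nodeC A Ac C hC hA g L hL θ hθ0.le S a hS).trans (le_of_eq ?_)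
      rw [hθ]
      field_simp
      norm_num) (L ^ 2 * (r : ℝ) ^ 2 * T / 2) (by positivity) hTI I hI0 hI
  have h2 : V ^ 2 * θ = V ^ 3 / (2048 * C * L ^ 2 * (r : ℝ) ^ 2 * (T : ℝ) ^ 8) := by
    rw [hθ]; ring
  rw [h2, div_le_iff₀ (by positivity)] at h
  refine h.trans (le_of_eq ?_)
  ring

end Family

end Pool.Agent.TH334.PR
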