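import Pool.Agent.TH334.PR.VarP
import Pool.Agent.TH334.NR.Model

/-!
# Quantum query algorithms which make few entangled reads

The model (`state`, `acc`) is the one of `Pool.Agent.TH334.NR.Model`: the basis states are pairs
(position of the oracle or null, workspace), the algorithm starts at the basis state `s₀`, applies
`U 0`, and then, for `k = 1, 2, ...`, the phase query (the basis state `(i, w)` is multiplied by
`-1` if `x i` is true) followed by `U k`.
-/

set_option autoImplicit false

namespace Pool.Agent.TH334.PR

open Finset Matrix Pool.Agent.H572R2 Pool.Agent.TH334.NR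

/-- The read of the position `i` at the basis state `(some i, w)` after `t` queries is a product
read: the amplitudes of this basis state for `x i` false and for `x i` true are proportional, with
a real ratio (possibly `0` or `∞`) which does not depend on the other bits of `x`. -/
def ProductRead {N m : ℕ} (U : ℕ → Matrix.unitaryGroup (Option (Fin N) × Fin m) ℂ)
    (s₀ : Option (Fin N) × Fin m) (t : ℕ) (i : Fin N) (w : Fin m) : Prop :=
  ∃ a b : ℝ, (a ≠ 0 ∨ b ≠ 0) ∧ ∀ x : Fin N → Bool,
    (a : ℂ) * state U s₀ t (Function.update x i false) (some i, w)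
      = b * state U s₀ t (Function.update x i true) (some i, w)

/-- Every computational path makes at most `k` entangled reads: there are counters `c t` (for the
time after `t` queries) with values at most `k` on the basis states and, for each of the `T` queries,
a set `X t` of basis states whose reads are counted, such that the counter never decreases along a
nonzero entry of the unitaries and increases there after a counted read, and all the reads which are
not counted are product reads. For example `c t s` may be the largest number of entangled reads on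
the paths to `s`. -/
def FewEntangledReads {N m : ℕ} (U : ℕ → Matrix.unitaryGroup (Option (Fin N) × Fin m) ℂ)
    (s₀ : Option (Fin N) × Fin m) (T k : ℕ) : Prop :=
  ∃ (c : ℕ → Option (Fin N) × Fin m → ℕ) (X : ℕ → Finset (Option (Fin N) × Fin m)),
    (∀ t s, c t s ≤ k) ∧
    (∀ t < T, ∀ s s', (U (t + 1)).1 s' s ≠ 0 →
      c t s + (if s ∈ X t then 1 else 0) ≤ c (t + 1) s') ∧
    (∀ t < T, ∀ (i : Fin N) (w : Fin m), (some i, w) ∉ X t → ProductRead U s₀ t i w)

section Link

variable {N m : ℕ} (U : ℕ → Matrix.unitaryGroup (Option (Fin N) × Fin m) ℂ)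
  (s₀ : Option (Fin N) × Fin m)

/-- If all the reads are product reads, no read is counted. -/
lemma few_of_product {T : ℕ} (h : ∀ t < T, ∀ i w, ProductRead U s₀ t i w) :
    FewEntangledReads U s₀ T 0 :=
  ⟨fun _ _ => 0, fun _ => ∅, fun _ _ => le_rfl, fun _ _ _ _ _ => by simp,
    fun t ht i w _ => h t ht i w⟩

/-- The algorithms which never re-read. -/
lemma few_of_never {T : ℕ} (h : NeverRereads U s₀ T) : FewEntangledReads U s₀ T 0 := by
  apply few_of_product
  intro t ht i w
  refine ⟨1, 1, Or.inl one_ne_zero, fun x => ?_⟩
  have h1 := h t ht i w (Function.update x i true)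
  have h2 : Function.update (Function.update x i true) i
      (!(Function.update x i true i)) = Function.update x i false := by
    simp
  rw [h2] at h1
  rw [h1]

/-- The reads of a bit whose value is recorded: if the amplitude vanishes unless `x i = v`, the read
is a product read. -/
lemma product_of_known {t : ℕ} {i : Fin N} {w : Fin m} (v : Bool)
    (h : ∀ x, x i ≠ v → state U s₀ t x (some i, w) = 0) : ProductRead U s₀ t i w := by
  cases v with
  | false =>
    refine ⟨0, 1, Or.inr one_ne_zero, fun x => ?_⟩
    rw [h (Function.update x i true) (by simp)]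
    simp
  | true =>
    refine ⟨1, 0, Or.inl one_ne_zero, fun x => ?_⟩
    rw [h (Function.update x i false) (by simp)]
    simp

lemma toAlg_SFac {t : ℕ} {i : Fin N} {w : Fin m} (h : ProductRead U s₀ t i w) :
    SFac (toAlg U s₀) t (some i, w) i := by
  obtain ⟨a, b, hab, hst⟩ := h
  set S0 : (Fin N → Bool) → ℂ := fun x => state U s₀ t (Function.update x i false) (some i, w)
    with hS0
  set S1 : (Fin N → Bool) → ℂ := fun x => state U s₀ t (Function.update x i true) (some i, w)
    with hS1
  have hst' : ∀ x, (a : ℂ) * S0 x = b * S1 x := hst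
  have hn : 0 < a ^ 2 + b ^ 2 := by
    rcases hab with h | h
    · positivity
    · positivity
  set n : ℝ := a ^ 2 + b ^ 2 with hnd
  have hnC : (n : ℂ) ≠ 0 := by exact_mod_cast hn.ne'
  have hnC' : (n : ℂ) = (a : ℂ) ^ 2 + (b : ℂ) ^ 2 := by rw [hnd]; push_cast; rfl
  set ρ : ℝ := Real.sqrt (n / 2) with hρ
  have hρ0 : 0 < ρ := Real.sqrt_pos.2 (by positivity)
  have hρ2 : ρ ^ 2 = n / 2 := Real.sq_sqrt (by positivity)
  have hρC : (ρ : ℂ) ≠ 0 := by exact_mod_cast hρ0.ne'
  refine ⟨(a + b) / 2 / ρ, (b - a) / 2 / ρ, ?_, fun x => ρ * ((b * S0 x + a * S1 x) / n), ?_, ?_⟩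
  · rw [div_pow _ ρ, div_pow _ ρ, ← add_div, hρ2]
    rw [div_eq_one_iff_eq (by positivity), hnd]
    ring
  · intro x
    have e : ∀ v, Function.update (flp i x) i v = Function.update x i v := by
      intro v
      unfold flp
      simp
    simp only [hS0, hS1, e]
  · intro x
    rw [toAlg_st]
    have k0 : S0 x = b * ((b * S0 x + a * S1 x) / n) := by
      field_simp
      rw [hnC']
      linear_combination (a : ℂ) * hst' x
    have k1 : S1 x = a * ((b * S0 x + a * S1 x) / n) := by
      field_simp
      rw [hnC']
      linear_combination -(b : ℂ) * hst' x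
    cases hx : x i
    · have e1 : state U s₀ t x (some i, w) = S0 x := by
        rw [hS0]
        simp only
        rw [← hx, Function.update_eq_self]
      rw [e1, k0]
      have : sg x i = 1 := by simp [sg, hx]
      rw [this, ← k0]
      push_cast
      conv_lhs => rw [k0]
      field_simp
      ring
    · have e1 : state U s₀ t x (some i, w) = S1 x := by
        rw [hS1]
        simp only
        rw [← hx, Function.update_eq_self]
      rw [e1]
      have : sg x i = -1 := by simp [sg, hx]
      rw [this]
      push_cast
      conv_lhs => rw [k1]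
      field_simp
      ring

lemma toAlg_KRs {T k : ℕ} (h : FewEntangledReads U s₀ T k) :
    ∃ c X, KRs (toAlg U s₀) T k c X := by
  obtain ⟨c, X, h1, h2, h3⟩ := h
  refine ⟨c, X, h1, fun t ht b b' hw => h2 t ht b b' hw, fun t ht b hb j hj => ?_⟩
  have hb' : b.1 = some j := hj
  have e : b = (some j, b.2) := Prod.ext hb' rfl
  rw [e]
  rw [e] at hb
  exact toAlg_SFac U s₀ (h3 t ht j b.2 hb)

lemma toAlg_light {T k : ℕ} (h : FewEntangledReads U s₀ T k) :
    LightN (toAlg U s₀) T ((1 + 26 * (T : ℝ) ^ 3) ^ k) := by
  obtain ⟨c, X, h1⟩ := toAlg_KRs U s₀ h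
  exact lightN h1

lemma one_le_C (T k : ℕ) : (1 : ℝ) ≤ (1 + 26 * (T : ℝ) ^ 3) ^ k :=
  one_le_pow₀ (by
    have : (0 : ℝ) ≤ 26 * (T : ℝ) ^ 3 := by positivity
    linarith)

end Link

end Pool.Agent.TH334.PR
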