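import Pool.Agent.TH334.PR.VarP

/-!
# Moments of the acceptance probability of a light algorithm
-/

set_option autoImplicit false

namespace Pool.Agent.TH334.PR

open Finset Matrix Pool.Agent.H572R2 Pool.Agent.TH334.NR

variable {N : ℕ} {B : Type} [Fintype B] [DecidableEq B]

variable {A : Alg N B} {T k : ℕ} {c : ℕ → B → ℕ} {X : ℕ → Finset B}

/-- The constant for the degree `D`. -/
noncomputable def KM (T k D : ℕ) : ℝ :=
  4 * (1 + (T : ℝ) ^ 2 * D) ^ 2 * (1 + 13 * ((T : ℝ) ^ 2 * D)) ^ k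

lemma KM_nonneg (T k D : ℕ) : 0 ≤ KM T k D := by unfold KM; positivity

lemma KM_mono (T k : ℕ) {D D' : ℕ} (h : D ≤ D') : KM T k D ≤ KM T k D' := by
  unfold KM
  have : (D : ℝ) ≤ D' := by exact_mod_cast h
  gcongr

/-- The sum of the squared one-sided differences of a light algorithm, with a weight of low
degree. -/
theorem sum_gradW (h : KR A T k c X) (τ : ℝ) (hτ0 : 0 ≤ τ)
    (hτ : ∀ t < T, ∀ j, mp A t j ≤ τ) (Ac : Finset B) (D : ℕ) (G : (Fin N → Bool) → ℝ)
    (hG : PD D (fun x => ((G x : ℝ) : ℂ))) :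
    ∑ i, EE (fun x => G x ^ 2 * (max 0 (A.ap T Ac x - A.ap T Ac (flp i x))) ^ 2)
      ≤ 16 * (T : ℝ) ^ 2 * KM T k (D + 2 * T) * τ * EE (fun x => G x ^ 2 * A.ap T Ac x) := by
  obtain ⟨w, hw1, hwd, hw2⟩ := gradQ A T Ac
  set K : ℝ := KM T k (D + 2 * T) * τ with hK
  have hK0 : 0 ≤ K := mul_nonneg (KM_nonneg _ _ _) hτ0
  calc ∑ i, EE (fun x => G x ^ 2 * (max 0 (A.ap T Ac x - A.ap T Ac (flp i x))) ^ 2)
      ≤ ∑ i, EE (fun x => 16 * T * ∑ u ∈ Finset.range T,
          G x ^ 2 * (nq A i (w u x) * A.qm (sg (flp i x)) u i)) := by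
        refine Finset.sum_le_sum fun i _ => EE_mono fun x => ?_
        have := mul_le_mul_of_nonneg_left (hw2 x i) (sq_nonneg (G x))
        refine this.trans (le_of_eq ?_)
        rw [← Finset.mul_sum]
        ring
    _ = 16 * T * ∑ u ∈ Finset.range T, ∑ i,
          EE (fun x => G x ^ 2 * (nq A i (w u x) * A.qm (sg (flp i x)) u i)) := by
        rw [Finset.sum_comm (s := Finset.range T), Finset.mul_sum]
        refine Finset.sum_congr rfl fun i _ => ?_
        rw [EE_mul, EE_sum]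
    _ ≤ 16 * T * ∑ u ∈ Finset.range T, K * EE (fun x => G x ^ 2 * A.ap T Ac x) := by
        gcongr with u hu
        have hu' := Finset.mem_range.1 hu
        have e1 : ∀ i, EE (fun x => G x ^ 2 * (nq A i (w u x) * A.qm (sg (flp i x)) u i))
            ≤ K * EE (fun x => G x ^ 2 * nq A i (w u x)) := by
          intro i
          have e2 : (fun x => G x ^ 2 * (nq A i (w u x) * A.qm (sg (flp i x)) u i))
              = fun x => ∑ b, (if A.pos b = some i then
                ‖(G x : ℂ) * w u x b‖ ^ 2 * A.qm (sg (flp i x)) u i else 0) := by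
            funext x
            unfold nq
            rw [Finset.sum_mul, Finset.mul_sum]
            refine Finset.sum_congr rfl fun b _ => ?_
            split_ifs
            · rw [norm_mul, mul_pow, Complex.norm_real, Real.norm_eq_abs, sq_abs]; ring
            · ring
          rw [e2, EE_sum]
          have e3 : EE (fun x => G x ^ 2 * nq A i (w u x))
              = ∑ b, EE (fun x => if A.pos b = some i then ‖(G x : ℂ) * w u x b‖ ^ 2 else 0) := by
            rw [← EE_sum]
            apply EE_congr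
            intro x
            unfold nq
            rw [Finset.mul_sum]
            refine Finset.sum_congr rfl fun b _ => ?_
            split_ifs
            · rw [norm_mul, mul_pow, Complex.norm_real, Real.norm_eq_abs, sq_abs]
            · ring
          rw [e3, Finset.mul_sum]
          refine Finset.sum_le_sum fun b _ => ?_
          split_ifs
          · have e4 : EE (fun x => ‖(G x : ℂ) * w u x b‖ ^ 2 * A.qm (sg (flp i x)) u i)
                = EE (fun x => ‖(G (flp i x) : ℂ) * w u (flp i x) b‖ ^ 2 * A.qm (sg x) u i) := by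
              rw [← EE_flp i (fun x => ‖(G (flp i x) : ℂ) * w u (flp i x) b‖ ^ 2
                * A.qm (sg x) u i)]
              apply EE_congr
              intro x
              rw [flp_flp]
            rw [e4, ← EE_flp i (fun x => ‖(G x : ℂ) * w u x b‖ ^ 2)]
            have hP : PD (D + 2 * T) (fun x => (G (flp i x) : ℂ) * w u (flp i x) b) :=
              (PD_flp i hG).mul (PD_flp i (hwd u b))
            refine (multP h τ hτ0 hτ (D + 2 * T) hP hu' i).trans ?_
            have e5 : 4 * (1 + (u : ℝ) ^ 2 * ((D + 2 * T : ℕ) : ℝ)) ^ 2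
                * (1 + 13 * ((u : ℝ) ^ 2 * ((D + 2 * T : ℕ) : ℝ))) ^ k ≤ KM T k (D + 2 * T) := by
              unfold KM
              have : (u : ℝ) ≤ T := by exact_mod_cast hu'.le
              gcongr
            have e6 : 0 ≤ EE (fun x => ‖(G (flp i x) : ℂ) * w u (flp i x) b‖ ^ 2) :=
              EE_nonneg fun x => by positivity
            rw [hK]
            gcongr
          · rw [EE_const]; simp
        calc ∑ i, EE (fun x => G x ^ 2 * (nq A i (w u x) * A.qm (sg (flp i x)) u i))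
            ≤ ∑ i, K * EE (fun x => G x ^ 2 * nq A i (w u x)) :=
              Finset.sum_le_sum fun i _ => e1 i
          _ = K * EE (fun x => G x ^ 2 * ∑ i, nq A i (w u x)) := by
              rw [← Finset.mul_sum, ← EE_sum]
              congr 1
              apply EE_congr
              intro x
              rw [Finset.mul_sum]
          _ ≤ K * EE (fun x => G x ^ 2 * A.ap T Ac x) := by
              gcongr
              apply EE_mono
              intro x
              refine mul_le_mul_of_nonneg_left ?_ (sq_nonneg _)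
              rw [← hw1 u x]
              exact A.sum_nq_le _
    _ = _ := by
        rw [Finset.sum_const, Finset.card_range, nsmul_eq_mul, hK]
        ring

/-- The powers of the acceptance probability. -/
lemma PD_pow (A : Alg N B) (T : ℕ) (Ac : Finset B) (n : ℕ) :
    PD (2 * T * n) (fun x => (((A.ap T Ac x) ^ n : ℝ) : ℂ)) := by
  induction n with
  | zero => exact (PD.const (N := N) _ 1).congr fun x => by simp
  | succ n ih =>
    have := ih.mul (A.PD_ap T Ac)
    rw [show 2 * T * (n + 1) = 2 * T * n + 2 * T by ring]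
    exact this.congr fun x => by push_cast; ring

lemma pow_sub_le {a b : ℝ} (ha : 0 ≤ a) (hb : 0 ≤ b) (n : ℕ) :
    max 0 (a ^ (n + 1) - b ^ (n + 1)) ≤ (n + 1) * a ^ n * max 0 (a - b) := by
  rcases le_total a b with h | h
  · have : a ^ (n + 1) ≤ b ^ (n + 1) := pow_le_pow_left₀ ha h _
    rw [max_eq_left (by linarith), max_eq_left (by linarith)]
    simp
  · have h1 : b ^ (n + 1) ≤ a ^ (n + 1) := pow_le_pow_left₀ hb h _
    rw [max_eq_right (by linarith), max_eq_right (by linarith)]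
    have h2 : ∀ m : ℕ, a ^ (m + 1) - b ^ (m + 1) ≤ (m + 1) * a ^ m * (a - b) := by
      intro m
      induction m with
      | zero => simp
      | succ m ih =>
        have e1 : b ^ (m + 1) ≤ a ^ (m + 1) := pow_le_pow_left₀ hb h _
        have e2 : a ^ (m + 1 + 1) - b ^ (m + 1 + 1)
            = a * (a ^ (m + 1) - b ^ (m + 1)) + (a - b) * b ^ (m + 1) := by ring
        have e3 := mul_le_mul_of_nonneg_left ih ha
        have e4 := mul_le_mul_of_nonneg_left e1 (sub_nonneg.2 h)
        push_cast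
        rw [e2]
        have e5 : ((m : ℝ) + 1 + 1) * a ^ (m + 1) * (a - b)
            = a * ((m + 1) * a ^ m * (a - b)) + (a - b) * a ^ (m + 1) := by ring
        linarith
    exact h2 n

/-- The moment inequality. -/
theorem moment (h : KR A T k c X) (τ : ℝ) (hτ0 : 0 ≤ τ)
    (hτ : ∀ t < T, ∀ j, mp A t j ≤ τ) (Ac : Finset B) (n : ℕ) :
    EE (fun x => (A.ap T Ac x) ^ (2 * (n + 1))) ≤ (EE (fun x => (A.ap T Ac x) ^ (n + 1))) ^ 2
      + 8 * ((n : ℝ) + 1) ^ 2 * (T : ℝ) ^ 2 * KM T k (2 * T * (n + 1)) * τ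
        * EE (fun x => (A.ap T Ac x) ^ (2 * n + 1)) := by
  set p := A.ap T Ac with hp
  have hp0 : ∀ x, 0 ≤ p x := A.ap_nonneg T Ac
  have hP := poincare (fun x => (p x) ^ (n + 1))
  have h1 := sum_gradW h τ hτ0 hτ Ac (2 * T * n) (fun x => (p x) ^ n) (PD_pow A T Ac n)
  have e1 : ∑ i, EE (fun x => (max 0 ((p x) ^ (n + 1) - (p (flp i x)) ^ (n + 1))) ^ 2)
      ≤ ((n : ℝ) + 1) ^ 2 * ∑ i, EE (fun x => ((p x) ^ n) ^ 2
        * (max 0 (p x - p (flp i x))) ^ 2) := by
    rw [Finset.mul_sum]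
    refine Finset.sum_le_sum fun i _ => ?_
    rw [← EE_mul]
    apply EE_mono
    intro x
    have := pow_sub_le (hp0 x) (hp0 (flp i x)) n
    calc (max 0 ((p x) ^ (n + 1) - (p (flp i x)) ^ (n + 1))) ^ 2
        ≤ ((n + 1) * (p x) ^ n * max 0 (p x - p (flp i x))) ^ 2 :=
          pow_le_pow_left₀ (le_max_left _ _) this 2
      _ = _ := by ring
  have e2 : EE (fun x => ((p x) ^ n) ^ 2 * p x) = EE (fun x => (p x) ^ (2 * n + 1)) := by
    apply EE_congr
    intro x
    ring
  have e3 : EE (fun x => ((p x) ^ (n + 1)) ^ 2) = EE (fun x => (p x) ^ (2 * (n + 1))) := by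
    apply EE_congr
    intro x
    ring
  have e4 : ∑ i, EE (fun x => ((p x) ^ (n + 1) - (p (flp i x)) ^ (n + 1)) ^ 2)
      = 2 * ∑ i, EE (fun x => (max 0 ((p x) ^ (n + 1) - (p (flp i x)) ^ (n + 1))) ^ 2) := by
    rw [Finset.mul_sum]
    exact Finset.sum_congr rfl fun i _ => EE_diff_sq i (fun x => (p x) ^ (n + 1))
  rw [e4, e3] at hP
  rw [e2, show 2 * T * n + 2 * T = 2 * T * (n + 1) by ring] at h1
  have e5 := mul_le_mul_of_nonneg_left h1 (by positivity : (0 : ℝ) ≤ ((n : ℝ) + 1) ^ 2)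
  nlinarith [hP, e1, e5]

/-- Young's inequality for powers. -/
lemma young {x a : ℝ} (hx : 0 ≤ x) (ha : 0 ≤ a) (m : ℕ) :
    (m + 1) * (x ^ m * a) ≤ m * x ^ (m + 1) + a ^ (m + 1) := by
  induction m with
  | zero => simp
  | succ m ih =>
    have h1 := mul_le_mul_of_nonneg_right ih hx
    have h2 : 0 ≤ (x ^ (m + 1) - a ^ (m + 1)) * (x - a) := by
      rcases le_total x a with h | h
      · have := pow_le_pow_left₀ hx h (m + 1)
        nlinarith
      · have := pow_le_pow_left₀ ha h (m + 1)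
        nlinarith
    push_cast
    have e1 : x ^ (m + 1 + 1) = x ^ m * x * x := by ring
    have e2 : a ^ (m + 1 + 1) = a ^ m * a * a := by ring
    have e3 : x ^ (m + 1) = x ^ m * x := by ring
    have e4 : a ^ (m + 1) = a ^ m * a := by ring
    rw [e3, e4] at h1 h2
    rw [e1, e2, e3]
    nlinarith [h1, h2]

/-- The dyadic moments. -/
theorem dyadic (h : KR A T k c X) (τ : ℝ) (hτ0 : 0 ≤ τ)
    (hτ : ∀ t < T, ∀ j, mp A t j ≤ τ) (Ac : Finset B) (l : ℕ) (Q : ℝ)
    (hQ : 8 * ((2 : ℝ) ^ l) ^ 2 * (T : ℝ) ^ 2 * KM T k (2 * T * 2 ^ l) ≤ Q) :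
    ∀ i ≤ l + 1, EE (fun x => (A.ap T Ac x) ^ (2 ^ i)) ≤
      (EE (A.ap T Ac) + i * (τ * Q)) ^ (2 ^ i) := by
  set p := A.ap T Ac with hp
  have hp0 : ∀ x, 0 ≤ p x := A.ap_nonneg T Ac
  have hμ : 0 ≤ EE p := EE_nonneg hp0
  have hQ0 : 0 ≤ Q := le_trans (by have := KM_nonneg T k (2 * T * 2 ^ l); positivity) hQ
  intro i
  induction i with
  | zero => intro _; simp
  | succ i ih =>
    intro hi
    have h1 := ih (by omega)
    obtain ⟨n, hn⟩ : ∃ n, 2 ^ i = n + 1 := ⟨2 ^ i - 1, by have := Nat.one_le_two_pow (n := i); omega⟩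
    have hnl : n + 1 ≤ 2 ^ l := hn ▸ Nat.pow_le_pow_right (by norm_num) (by omega)
    have hm := moment h τ hτ0 hτ Ac n
    rw [hn] at h1
    have e2 : 2 ^ (i + 1) = 2 * (n + 1) := by rw [pow_succ, hn]; ring
    rw [e2]
    set y : ℝ := EE p + i * (τ * Q) with hy
    have hy0 : 0 ≤ y := by positivity
    have ey : EE p + ((i + 1 : ℕ) : ℝ) * (τ * Q) = y + τ * Q := by rw [hy]; push_cast; ring
    rw [ey]
    have hC : 8 * ((n : ℝ) + 1) ^ 2 * (T : ℝ) ^ 2 * KM T k (2 * T * (n + 1)) ≤ Q := by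
      refine le_trans ?_ hQ
      have e3 : ((n : ℝ) + 1) ≤ 2 ^ l := by exact_mod_cast hnl
      have e4 : KM T k (2 * T * (n + 1)) ≤ KM T k (2 * T * 2 ^ l) :=
        KM_mono T k (Nat.mul_le_mul_left _ hnl)
      have e5 := KM_nonneg T k (2 * T * (n + 1))
      gcongr
    set M : ℝ := EE (fun x => (p x) ^ (2 * (n + 1))) with hM
    have hM0 : 0 ≤ M := EE_nonneg fun x => pow_nonneg (hp0 x) _
    set M1 : ℝ := EE (fun x => (p x) ^ (2 * n + 1)) with hM1
    have hM10 : 0 ≤ M1 := EE_nonneg fun x => pow_nonneg (hp0 x) _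
    have hm2 : M ≤ y ^ (2 * (n + 1)) + Q * τ * M1 := by
      have e6 : (EE (fun x => (p x) ^ (n + 1))) ^ 2 ≤ y ^ (2 * (n + 1)) := by
        have e7 : 0 ≤ EE (fun x => (p x) ^ (n + 1)) := EE_nonneg fun x => pow_nonneg (hp0 x) _
        calc (EE (fun x => (p x) ^ (n + 1))) ^ 2 ≤ (y ^ (n + 1)) ^ 2 := pow_le_pow_left₀ e7 h1 2
          _ = y ^ (2 * (n + 1)) := by rw [← pow_mul]; congr 1; ring
      have e8 := mul_le_mul_of_nonneg_right (mul_le_mul_of_nonneg_right hC hτ0) hM10
      linarith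
    by_contra hcon
    rw [not_le] at hcon
    obtain ⟨a, ha0, ha⟩ : ∃ a : ℝ, 0 ≤ a ∧ a ^ (2 * n + 1 + 1) = M := by
      refine ⟨M ^ ((1 : ℝ) / ((2 * n + 1 + 1 : ℕ) : ℝ)), Real.rpow_nonneg hM0 _, ?_⟩
      rw [← Real.rpow_natCast, ← Real.rpow_mul hM0, one_div,
        inv_mul_cancel₀ (by positivity), Real.rpow_one]
    have e9 : 2 * (n + 1) = 2 * n + 1 + 1 := by ring
    rw [e9] at hm2 hcon
    have hya : y + τ * Q < a := by
      by_contra hc
      rw [not_lt] at hc
      have := pow_le_pow_left₀ ha0 hc (2 * n + 1 + 1)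
      rw [ha] at this
      linarith
    -- Hölder
    have hH : a * M1 ≤ M := by
      have e10 : ∀ x, ((2 * n + 1 : ℕ) + 1 : ℝ) * ((p x) ^ (2 * n + 1) * a)
          ≤ (2 * n + 1 : ℕ) * (p x) ^ (2 * n + 1 + 1) + a ^ (2 * n + 1 + 1) := fun x =>
        young (hp0 x) ha0 (2 * n + 1)
      have e11 := EE_mono e10
      rw [EE_mul] at e11
      have e12 : EE (fun x => (p x) ^ (2 * n + 1) * a) = a * M1 := by
        rw [hM1, ← EE_mul]
        apply EE_congr
        intro x
        ring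
      have e13 : EE (fun x => ((2 * n + 1 : ℕ) : ℝ) * (p x) ^ (2 * n + 1 + 1)
          + a ^ (2 * n + 1 + 1)) = (2 * n + 1 : ℕ) * M + M := by
        rw [EE_add, EE_mul, EE_const, ha, hM, e9]
      rw [e12, e13] at e11
      have e14 : (0 : ℝ) < ((2 * n + 1 : ℕ) : ℝ) + 1 := by positivity
      have e15 : (((2 * n + 1 : ℕ) : ℝ) + 1) * (a * M1) ≤ (((2 * n + 1 : ℕ) : ℝ) + 1) * M := by
        linarith
      exact le_of_mul_le_mul_left e15 e14
    have hapos : 0 < a := lt_of_le_of_lt (by positivity) hya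
    have e16 : M1 ≤ a ^ (2 * n + 1) := by
      rw [← ha, pow_succ] at hH
      have : a * M1 ≤ a * a ^ (2 * n + 1) := by linarith
      exact le_of_mul_le_mul_left this hapos
    have e17 : Q * τ * M1 ≤ Q * τ * a ^ (2 * n + 1) := by gcongr
    have e18 : a ^ (2 * n + 1) * (a - τ * Q) ≤ y ^ (2 * n + 1 + 1) := by
      have : a ^ (2 * n + 1 + 1) = a ^ (2 * n + 1) * a := pow_succ _ _
      rw [← ha] at hm2
      nlinarith
    have hya' : y < a - τ * Q := by linarith
    have hτQ : 0 ≤ τ * Q := mul_nonneg hτ0 hQ0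
    have e19 : y ^ (2 * n + 1) ≤ a ^ (2 * n + 1) := pow_le_pow_left₀ hy0 (by linarith) _
    have e20 : y ^ (2 * n + 1 + 1) < a ^ (2 * n + 1) * (a - τ * Q) := by
      have h21 : 0 < a ^ (2 * n + 1) := by positivity
      calc y ^ (2 * n + 1 + 1) = y ^ (2 * n + 1) * y := pow_succ _ _
        _ ≤ a ^ (2 * n + 1) * y := mul_le_mul_of_nonneg_right e19 hy0
        _ < a ^ (2 * n + 1) * (a - τ * Q) := mul_lt_mul_of_pos_left hya' h21
    linarith

end Pool.Agent.TH334.PR
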