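import Pool.Agent.TH334.PR.Mom
import Pool.Agent.TH334.NR.Tree

/-!
# Decision trees with an exponentially small probability of failure
-/

set_option autoImplicit false

namespace Pool.Agent.TH334.PR

open Finset Pool.Agent.H572R2 Pool.Agent.TH334.NR

variable {N : ℕ}

/-- The indicator of a large deviation. -/
noncomputable def ii (ε v : ℝ) : ℝ := if ε < |v| then 1 else 0

lemma ii_nonneg (ε v : ℝ) : 0 ≤ ii ε v := by unfold ii; split_ifs <;> norm_num

variable {m : ℕ → Fin N → (Fin N → Bool) → ℝ}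

/-- The simulating decision tree; the cost has an exponential moment. -/
lemma reltree (hm : ∀ t k x, 0 ≤ m t k x) (r : ℕ) (p : (Fin N → Bool) → ℝ) (ε δ θ R : ℝ)
    (hθ : 0 < θ) (hR : 0 < R) (hAA : ∀ S a, AA m r S a ≤ R)
    (hlight : ∀ (S : Finset (Fin N)) (a : Fin N → Bool),
      (∀ t < r, ∀ k ∈ Sᶜ, Ex S a (m t k) ≤ θ) →
      Ex S a (fun x => ii ε (p x - Ex S a p)) ≤ δ) :
    ∀ (n : ℕ) (S : Finset (Fin N)) (a : Fin N → Bool), (Sᶜ).card = n →
      ∃ e : DTree N, (∀ i ∈ S, ∀ x, e.eval (flp i x) = e.eval x ∧ e.cost (flp i x) = e.cost x) ∧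
        EE (fun x => ii ε (p (mix S a x) - e.eval x)) ≤ δ ∧
        EE (fun x => (1 + θ / (2 * R)) ^ (e.cost x)) ≤ 1 + AA m r S a / R := by
  classical
  have hdone : ∀ (S : Finset (Fin N)) (a : Fin N → Bool),
      (∀ t < r, ∀ k ∈ Sᶜ, Ex S a (m t k) ≤ θ) →
      ∃ e : DTree N, (∀ i ∈ S, ∀ x, e.eval (flp i x) = e.eval x ∧ e.cost (flp i x) = e.cost x) ∧
        EE (fun x => ii ε (p (mix S a x) - e.eval x)) ≤ δ ∧
        EE (fun x => (1 + θ / (2 * R)) ^ (e.cost x)) ≤ 1 + AA m r S a / R := by
    intro S a h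
    refine ⟨DTree.leaf (Ex S a p), fun _ _ _ => ⟨rfl, rfl⟩, hlight S a h, ?_⟩
    have h3 : (fun x : Fin N → Bool => (1 + θ / (2 * R)) ^ ((DTree.leaf (Ex S a p) : DTree N).cost x))
        = fun _ => (1 : ℝ) := by
      funext x
      show (1 + θ / (2 * R)) ^ 0 = (1 : ℝ)
      simp
    rw [h3, EE_const]
    have := div_nonneg (AA_nonneg hm r S a) hR.le
    linarith
  intro n
  induction n with
  | zero =>
    intro S a hS
    have hS' : Sᶜ = ∅ := Finset.card_eq_zero.1 hS
    exact hdone S a (by intro t _ k hk; rw [hS'] at hk; simp at hk)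
  | succ n ih =>
    intro S a hS
    by_cases hlt : ∀ t < r, ∀ k ∈ Sᶜ, Ex S a (m t k) ≤ θ
    · exact hdone S a hlt
    · push Not at hlt
      obtain ⟨t, ht, i, hi, hti⟩ := hlt
      have hi' : i ∉ S := by simpa using hi
      have hc : ((insert i S)ᶜ).card = n := by
        have : (insert i S)ᶜ = (Sᶜ).erase i := by
          ext k; simp
        rw [this, Finset.card_erase_of_mem hi, hS]; rfl
      obtain ⟨e1, inv1, err1, cost1⟩ := ih (insert i S) (Function.update a i true) hc
      obtain ⟨e0, inv0, err0, cost0⟩ := ih (insert i S) (Function.update a i false) hc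
      have hA := AA_split' hm r hi' a ht hti.le
      have hiins : i ∈ insert i S := Finset.mem_insert_self i S
      refine ⟨DTree.query i e0 e1, ?_, ?_, ?_⟩
      · intro j hj x
        have hji : i ≠ j := by rintro rfl; exact hi' hj
        have a1 := inv1 j (Finset.mem_insert_of_mem hj) x
        have a0 := inv0 j (Finset.mem_insert_of_mem hj) x
        constructor
        · show (if flp j x i then e1.eval (flp j x) else e0.eval (flp j x))
            = if x i then e1.eval x else e0.eval x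
          rw [flp_ne hji, a1.1, a0.1]
        · show (if flp j x i then e1.cost (flp j x) else e0.cost (flp j x)) + 1
            = (if x i then e1.cost x else e0.cost x) + 1
          rw [flp_ne hji, a1.2, a0.2]
      · have hmix : ∀ c (x : Fin N → Bool), x i = c → mix S a x
            = mix (insert i S) (Function.update a i c) x := by
          intro c x hx
          funext k
          by_cases hk : k = i
          · subst hk; simp [mix, hi', hx]
          · simp [mix, hk]
        have e1' : EE (fun x => ii ε (p (mix S a x) - (DTree.query i e0 e1).eval x))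
            = EE (fun x => if x i
              then ii ε (p (mix (insert i S) (Function.update a i true) x) - e1.eval x)
              else ii ε (p (mix (insert i S) (Function.update a i false) x) - e0.eval x)) := by
          apply EE_congr; intro x
          show ii ε (p (mix S a x) - if x i then e1.eval x else e0.eval x) = _
          cases hx : x i
          · simp only [Bool.false_eq_true, if_false]
            rw [hmix false x hx]
          · simp only [if_true]
            rw [hmix true x hx]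
        rw [e1', EE_ite]
        · linarith
        · intro x
          rw [mix_flp_mem hiins, (inv1 i hiins x).1]
        · intro x
          rw [mix_flp_mem hiins, (inv0 i hiins x).1]
      · set b : ℝ := 1 + θ / (2 * R) with hb
        have e1' : EE (fun x => b ^ ((DTree.query i e0 e1).cost x))
            = b * ((EE (fun x => b ^ (e1.cost x)) + EE (fun x => b ^ (e0.cost x))) / 2) := by
          rw [← EE_ite i (fun x => b ^ (e1.cost x)) (fun x => b ^ (e0.cost x))
            (fun x => by rw [(inv1 i hiins x).2]) (fun x => by rw [(inv0 i hiins x).2]),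
            ← EE_mul]
          apply EE_congr; intro x
          show b ^ ((if x i then e1.cost x else e0.cost x) + 1) = _
          rw [pow_succ]
          split_ifs <;> ring
        rw [e1']
        have hb0 : 0 ≤ b := by positivity
        have h1 : (EE (fun x => b ^ (e1.cost x)) + EE (fun x => b ^ (e0.cost x))) / 2
            ≤ 1 + (AA m r S a - θ) / R := by
          have h2 := div_le_div_of_nonneg_right hA hR.le
          have h5 : (AA m r (insert i S) (Function.update a i true)
            + AA m r (insert i S) (Function.update a i false)) / 2 / R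
            = (AA m r (insert i S) (Function.update a i true) / R
              + AA m r (insert i S) (Function.update a i false) / R) / 2 := by ring
          rw [h5] at h2
          linarith
        refine (mul_le_mul_of_nonneg_left h1 hb0).trans ?_
        have hAR := hAA S a
        rw [hb]
        have e2 : (1 + θ / (2 * R)) * (1 + (AA m r S a - θ) / R)
            = 1 + AA m r S a / R - (θ / (2 * R)) * (1 - AA m r S a / R) - θ ^ 2 / (2 * R ^ 2) := by
          field_simp
          ring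
        rw [e2]
        have e3 : AA m r S a / R ≤ 1 := (div_le_one hR).2 hAR
        have e4 : 0 ≤ (θ / (2 * R)) * (1 - AA m r S a / R) :=
          mul_nonneg (by positivity) (by linarith)
        have e5 : 0 ≤ θ ^ 2 / (2 * R ^ 2) := by positivity
        linarith

/-- Reliable classical simulation. -/
theorem relsim (hm : ∀ t k x, 0 ≤ m t k x) (r : ℕ) (p : (Fin N → Bool) → ℝ) (ε δ θ R : ℝ)
    (hθ : 0 < θ) (hR : 0 < R) (hAA : ∀ S a, AA m r S a ≤ R)
    (hlight : ∀ (S : Finset (Fin N)) (a : Fin N → Bool),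
      (∀ t < r, ∀ k ∈ Sᶜ, Ex S a (m t k) ≤ θ) →
      Ex S a (fun x => ii ε (p x - Ex S a p)) ≤ δ) (D h : ℕ) (hD : 2 * R * h ≤ θ * D)
    (hθR : θ ≤ 2 * R) :
    ∃ e : DTree N, e.depth ≤ D ∧
      EE (fun x => ii ε (p x - e.eval x)) ≤ δ + 2 * (1 / 2) ^ h := by
  obtain ⟨e, _, herr, hcost⟩ := reltree hm r p ε δ θ R hθ hR hAA hlight _ ∅ (fun _ => true) rfl
  simp only [mix_empty] at herr
  obtain ⟨e', hd, he'⟩ := e.trunc D
  refine ⟨e', hd, ?_⟩
  set b : ℝ := 1 + θ / (2 * R) with hb
  have hb1 : 1 ≤ b := by rw [hb]; have : 0 ≤ θ / (2 * R) := by positivity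
                         linarith
  have hcost' : EE (fun x => b ^ (e.cost x)) ≤ 2 := by
    refine hcost.trans ?_
    have := (div_le_one hR).2 (hAA ∅ (fun _ => true))
    linarith
  -- `b ^ D ≥ 2 ^ h`
  have hbD : (2 : ℝ) ^ h ≤ b ^ D := by
    set u : ℝ := θ / (2 * R) with hu
    have hu0 : 0 < u := by positivity
    have hu1 : u ≤ 1 := (div_le_one (by positivity)).2 hθR
    have hDu : (h : ℝ) ≤ u * D := by
      rw [hu, div_mul_eq_mul_div, le_div_iff₀ (by positivity)]
      linarith
    have h2 : (2 : ℝ) ^ u ≤ 1 + u := by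
      have := rpow_one_add_le_one_add_mul_self (s := 1) (by norm_num) hu0.le hu1
      norm_num at this
      linarith
    calc (2 : ℝ) ^ h = (2 : ℝ) ^ (h : ℝ) := (Real.rpow_natCast _ _).symm
      _ ≤ (2 : ℝ) ^ (u * D) := Real.rpow_le_rpow_of_exponent_le (by norm_num) hDu
      _ = ((2 : ℝ) ^ u) ^ D := by rw [Real.rpow_mul (by norm_num), Real.rpow_natCast]
      _ ≤ (1 + u) ^ D := pow_le_pow_left₀ (by positivity) h2 D
  have hpt : ∀ x, ii ε (p x - e'.eval x) ≤ ii ε (p x - e.eval x) + (1 / 2) ^ h * b ^ (e.cost x) := by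
    intro x
    by_cases hx : e.cost x ≤ D
    · rw [he' x hx]
      have : 0 ≤ (1 / 2 : ℝ) ^ h * b ^ (e.cost x) := by positivity
      linarith
    · have h1 : ii ε (p x - e'.eval x) ≤ 1 := by unfold ii; split_ifs <;> norm_num
      have h3 : b ^ D ≤ b ^ (e.cost x) := pow_le_pow_right₀ hb1 (by omega)
      have h4 : (1 / 2 : ℝ) ^ h * 2 ^ h ≤ (1 / 2 : ℝ) ^ h * b ^ (e.cost x) := by
        gcongr
        exact hbD.trans h3
      rw [← mul_pow] at h4
      norm_num at h4
      have := ii_nonneg ε (p x - e.eval x)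
      linarith
  calc EE (fun x => ii ε (p x - e'.eval x))
      ≤ EE (fun x => ii ε (p x - e.eval x) + (1 / 2) ^ h * b ^ (e.cost x)) := EE_mono hpt
    _ = EE (fun x => ii ε (p x - e.eval x)) + (1 / 2) ^ h * EE (fun x => b ^ (e.cost x)) := by
        rw [EE_add, EE_mul]
    _ ≤ δ + (1 / 2) ^ h * 2 := by gcongr
    _ = _ := by ring

variable {B : Type} [Fintype B] [DecidableEq B]

variable {A : Alg N B} {T k : ℕ} {c : ℕ → B → ℕ} {X : ℕ → Finset B}

lemma ap_compl (A : Alg N B) (T : ℕ) (Ac : Finset B) (x : Fin N → Bool) :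
    A.ap T Acᶜ x = 1 - A.ap T Ac x := by
  have h1 : A.ap T Ac x + A.ap T Acᶜ x = nsq (A.st (sg x) T) := by
    unfold Alg.ap nsq
    exact Finset.sum_add_sum_compl Ac _
  have h2 : nsq (A.st (sg x) T) = 1 := A.nst (fun i => by unfold sg; split_ifs <;> simp) T
  linarith

/-- The upper tail at a light node. -/
lemma uptail (h : KR A T k c X) (τ : ℝ) (hτ0 : 0 ≤ τ)
    (hτ : ∀ t < T, ∀ j, mp A t j ≤ τ) (Ac : Finset B) (l : ℕ) (Q ε : ℝ) (hε : 0 < ε) (hε1 : ε ≤ 1)
    (hQ : 8 * ((2 : ℝ) ^ l) ^ 2 * (T : ℝ) ^ 2 * KM T k (2 * T * 2 ^ l) ≤ Q)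
    (hτQ : (l + 1 : ℕ) * (τ * Q) ≤ ε / 2) :
    EE (fun x => if ε < A.ap T Ac x - EE (A.ap T Ac) then (1 : ℝ) else 0)
      ≤ (1 - ε / 4) ^ (2 ^ (l + 1)) := by
  set p := A.ap T Ac with hp
  have hp0 : ∀ x, 0 ≤ p x := A.ap_nonneg T Ac
  set μ := EE p with hμ
  have hμ0 : 0 ≤ μ := EE_nonneg hp0
  have hμ1 : μ ≤ 1 := (EE_mono fun x => A.ap_le_one T Ac x).trans (le_of_eq (EE_const 1))
  have h1 := dyadic h τ hτ0 hτ Ac l Q hQ (l + 1) le_rfl
  rw [← hp] at h1
  set L : ℕ := 2 ^ (l + 1) with hL
  have h2 : (μ + (l + 1 : ℕ) * (τ * Q)) ^ L ≤ ((μ + ε) * (1 - ε / 4)) ^ L := by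
    have hQ0 : 0 ≤ Q := le_trans (by have := KM_nonneg T k (2 * T * 2 ^ l); positivity) hQ
    apply pow_le_pow_left₀ (by positivity)
    nlinarith
  have hpos : 0 < (μ + ε) ^ L := by positivity
  have h3 : (μ + ε) ^ L * EE (fun x => if ε < p x - μ then (1 : ℝ) else 0)
      ≤ EE (fun x => (p x) ^ L) := by
    rw [← EE_mul]
    apply EE_mono
    intro x
    split_ifs with hx
    · rw [mul_one]
      exact pow_le_pow_left₀ (by positivity) (by linarith) L
    · rw [mul_zero]
      exact pow_nonneg (hp0 x) L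
  rw [mul_pow] at h2
  have h4 := h3.trans (h1.trans h2)
  exact le_of_mul_le_mul_left h4 hpos

/-- Both tails at a light node. -/
lemma tails (h : KR A T k c X) (τ : ℝ) (hτ0 : 0 ≤ τ)
    (hτ : ∀ t < T, ∀ j, mp A t j ≤ τ) (Ac : Finset B) (l : ℕ) (Q ε : ℝ) (hε : 0 < ε) (hε1 : ε ≤ 1)
    (hQ : 8 * ((2 : ℝ) ^ l) ^ 2 * (T : ℝ) ^ 2 * KM T k (2 * T * 2 ^ l) ≤ Q)
    (hτQ : (l + 1 : ℕ) * (τ * Q) ≤ ε / 2) :
    EE (fun x => ii ε (A.ap T Ac x - EE (A.ap T Ac))) ≤ 2 * (1 - ε / 4) ^ (2 ^ (l + 1)) := by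
  have h1 := uptail h τ hτ0 hτ Ac l Q ε hε hε1 hQ hτQ
  have h2 := uptail h τ hτ0 hτ Acᶜ l Q ε hε hε1 hQ hτQ
  have h3 : EE (A.ap T Acᶜ) = 1 - EE (A.ap T Ac) := by
    have : A.ap T Acᶜ = fun x => 1 + (-1) * A.ap T Ac x := by
      funext x
      rw [ap_compl]; ring
    rw [this, EE_add, EE_const, EE_mul]; ring
  calc EE (fun x => ii ε (A.ap T Ac x - EE (A.ap T Ac)))
      ≤ EE (fun x => (if ε < A.ap T Ac x - EE (A.ap T Ac) then (1 : ℝ) else 0)
        + (if ε < A.ap T Acᶜ x - EE (A.ap T Acᶜ) then (1 : ℝ) else 0)) := by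
        apply EE_mono
        intro x
        rw [ap_compl, h3]
        unfold ii
        by_cases h5 : ε < |A.ap T Ac x - EE (A.ap T Ac)|
        · rw [if_pos h5]
          rcases lt_abs.1 h5 with h6 | h6
          · rw [if_pos h6]
            split_ifs <;> norm_num
          · have : ε < 1 - A.ap T Ac x - (1 - EE (A.ap T Ac)) := by linarith
            rw [if_pos this]
            split_ifs <;> norm_num
        · rw [if_neg h5]
          split_ifs <;> norm_num
    _ = _ := EE_add _ _
    _ ≤ _ := by linarith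

/-- Both tails at a light node of the restriction tree. -/
lemma node_tails (h : KRs A T k c X) (τ : ℝ) (hτ0 : 0 ≤ τ) (Ac : Finset B) (l : ℕ) (Q ε : ℝ)
    (hε : 0 < ε) (hε1 : ε ≤ 1)
    (hQ : 8 * ((2 : ℝ) ^ l) ^ 2 * (T : ℝ) ^ 2 * KM T k (2 * T * 2 ^ l) ≤ Q)
    (hτQ : (l + 1 : ℕ) * (τ * Q) ≤ ε / 2) (S : Finset (Fin N)) (a : Fin N → Bool)
    (hl : ∀ t < T, ∀ k ∈ Sᶜ, Ex S a (fun x => A.evo.mag t k x) ≤ τ) :
    Ex S a (fun x => ii ε (A.ap T Ac x - Ex S a (A.ap T Ac)))
      ≤ 2 * (1 - ε / 4) ^ (2 ^ (l + 1)) := by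
  have hpr : ∀ x, (A.res S a).ap T Ac x = A.ap T Ac (mix S a x) := by
    intro x
    unfold Alg.ap
    refine Finset.sum_congr rfl fun s _ => ?_
    rw [A.res_st]
  have hc : KR (A.res S a) T k c X := KR_of_KRs (res_KRs h S a)
  have h1 := tails (A := A.res S a) hc τ hτ0 (fun t ht k => by
    rw [← mp_eq (A.res S a) t k]
    by_cases hk : k ∈ S
    · have : EE (fun x => (A.res S a).qm (sg x) t k) = 0 := by
        rw [← EE_const (N := N) 0]
        apply EE_congr
        intro x
        rw [A.res_qm, if_pos hk]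
      rw [this]
      exact hτ0
    · have h2 := hl t ht k (by simpa using hk)
      refine (le_of_eq ?_).trans h2
      unfold Ex
      apply EE_congr
      intro x
      rw [A.res_qm, if_neg hk]
      show _ = A.evo.mag t k (mix S a x)
      rw [A.mag_eq]) Ac l Q ε hε hε1 hQ hτQ
  have e2 : EE ((A.res S a).ap T Ac) = Ex S a (A.ap T Ac) := by
    unfold Ex
    apply EE_congr
    intro x
    rw [hpr]
  rw [e2] at h1
  refine le_trans (le_of_eq ?_) h1
  unfold Ex
  apply EE_congr
  intro x
  rw [hpr]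

end Pool.Agent.TH334.PR
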