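import Pool.Agent.TH334.PR.Cnt
import Pool.Agent.TH334.NR.Light

/-!
# Few entangled reads, with sign phases
-/

set_option autoImplicit false

namespace Pool.Agent.TH334.PR

open Finset Matrix Pool.Agent.H572R2 Pool.Agent.TH334.NR

variable {N : ℕ} {B : Type} [Fintype B] [DecidableEq B]

/-- The coefficients of the product over disjoint pairs. -/
noncomputable def sp (a c : Finset (Fin N) → ℂ) (U : Finset (Fin N)) : ℂ :=
  ∑ R ∈ U.powerset, a R * c (U \ R)

lemma dd_sg (a c : Finset (Fin N) → ℂ) (u : Fin N → ℂ) :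
    dd a c u u = ∑ U, mon u U * sp a c U := by
  classical
  have h := union_sum u (fun _ => True) a c
  simp only [and_true, if_true] at h
  unfold dd sp
  rw [← h]

/-- The part without collisions is smaller than the product with cube root phases. -/
lemma proj (a c : Finset (Fin N) → ℂ) :
    EE (fun x => ‖dd a c (sg x) (sg x)‖ ^ 2) ≤ E3 (fun z => ‖gv a (te z)‖ ^ 2 * ‖gv c (te z)‖ ^ 2) := by
  have h1 : EE (fun x => ‖dd a c (sg x) (sg x)‖ ^ 2) = ∑ U, ‖sp a c U‖ ^ 2 := by
    simp_rw [dd_sg]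
    exact pars_sg _
  have h2 : E3 (fun z => ‖gv a (te z)‖ ^ 2 * ‖gv c (te z)‖ ^ 2)
      = ∑ γ, ‖∑ P with rk P = γ, a P.1 * c P.2‖ ^ 2 := by
    rw [← pars_k (fun P => a P.1 * c P.2)]
    apply E3_congr
    intro z
    rw [← mul_pow, ← norm_mul]
    congr 2
    unfold gv
    rw [Finset.sum_mul_sum, Fintype.sum_prod_type]
    refine Finset.sum_congr rfl fun S _ => Finset.sum_congr rfl fun S' _ => ?_
    ring
  rw [h1, h2]
  have h3 : ∀ U, ‖sp a c U‖ ^ 2 = ‖∑ P with rk P = ru U, a P.1 * c P.2‖ ^ 2 := by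
    intro U
    rw [fib_ru U (fun P => a P.1 * c P.2)]
    rfl
  rw [Finset.sum_congr rfl fun U _ => h3 U]
  exact le_records (fun γ => ‖∑ P with rk P = γ, a P.1 * c P.2‖ ^ 2) fun γ => by positivity

lemma off_off (j : Fin N) (a : Finset (Fin N) → ℂ) : off j (off j a) = off j a := by
  funext R
  unfold off
  split_ifs <;> rfl

lemma off_lk (j : Fin N) (a : Finset (Fin N) → ℂ) : off j (lk j a) = lk j a := by
  funext R
  unfold off lk
  split_ifs <;> rfl

lemma lk_lk (j : Fin N) (a : Finset (Fin N) → ℂ) : lk j (lk j a) = fun _ => 0 := by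
  funext R
  unfold lk
  split_ifs with h1 h2
  · rfl
  · rfl
  · exact absurd (Finset.mem_insert_self j R) h2

lemma dd_zero (c : Finset (Fin N) → ℂ) (w u : Fin N → ℂ) : dd (fun _ => 0) c w u = 0 := by
  unfold dd
  refine Finset.sum_eq_zero fun R _ => Finset.sum_eq_zero fun S _ => ?_
  split_ifs <;> simp

/-- The error at a query, over the sign cube. -/
lemma err_sg (j : Fin N) (a c : Finset (Fin N) → ℂ) (x : Fin N → Bool) :
    dd a (tg {j} c) (sg x) (sg x) - sg x j * dd a c (sg x) (sg x)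
      = - dd (lk j a) c (sg (flp j x)) (sg (flp j x)) := by
  have hne : ∀ i, i ≠ j → sg (flp j x) i = sg x i := by
    intro i hi
    unfold sg
    rw [flp_ne hi]
  have hj : sg (flp j x) j = - sg x j := by
    unfold sg
    rw [flp_same]
    cases x j <;> simp
  have e1 : dd (lk j a) (off j c) (sg (flp j x)) (sg (flp j x))
      = dd (lk j a) (off j c) (sg x) (sg x) := dd_inv j a c hne hne
  have e2 : dd (lk j a) (lk j c) (sg (flp j x)) (sg (flp j x))
      = dd (lk j a) (lk j c) (sg x) (sg x) := by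
    have := dd_inv j a (lk j c) hne hne
    rwa [off_lk] at this
  rw [dd_split j a (tg {j} c), off_tg, lk_tg, dd_split j a c, dd_split j (lk j a) c, off_lk,
    lk_lk, dd_zero, e1, e2, hj]
  linear_combination (- dd (off j a) (lk j c) (sg x) (sg x)
    - dd (lk j a) (off j c) (sg x) (sg x)) * sg_sq' x j

/-- The multipliers over the sign cube. -/
noncomputable def Zs (A : Alg N B) (x : Fin N → Bool) (_ : ℕ) (b : B) : ℂ := mon (sg x) (A.os b)

lemma Zs_norm (A : Alg N B) (x : Fin N → Bool) (t : ℕ) (b : B) : ‖Zs A x t b‖ = 1 :=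
  norm_mon (norm_sg x) _

lemma err_EE (A : Alg N B) (a : Finset (Fin N) → ℂ) (t : ℕ) (b : B) :
    EE (fun x => ‖Er A a (sg x) (sg x) (Zs A x) t b‖ ^ 2)
      ≤ ∑ j, if A.pos b = some j then
        E3 (fun z => ‖gv (lk j a) (te z)‖ ^ 2 * ‖gv (cb A t b) (te z)‖ ^ 2) else 0 := by
  cases hb : A.pos b with
  | none =>
    have e : EE (fun x => ‖Er A a (sg x) (sg x) (Zs A x) t b‖ ^ 2) = 0 := by
      rw [← EE_const (N := N) 0]
      apply EE_congr
      intro x
      unfold Er Zs
      rw [os_none A hb, tg_empty]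
      simp [mon]
    rw [e]
    simp
  | some j =>
    rw [Finset.sum_eq_single j]
    · rw [if_pos rfl]
      refine le_trans (le_of_eq ?_) (proj (lk j a) (cb A t b))
      rw [← EE_flp j (fun x => ‖dd (lk j a) (cb A t b) (sg x) (sg x)‖ ^ 2)]
      apply EE_congr
      intro x
      unfold Er Zs
      rw [os_some A hb]
      have : mon (sg x) {j} = sg x j := by simp [mon]
      rw [this, err_sg, norm_neg]
    · intro k _ hk
      rw [if_neg]
      intro h2
      exact hk (Option.some.inj h2).symm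
    · intro h2; exact absurd (Finset.mem_univ _) h2

/-- The multiplication bound with cube root phases, as a hypothesis. -/
def M3 (A : Alg N B) (D : ℕ) (t : ℕ) (K : ℝ) : Prop :=
  ∀ s ≤ t, ∀ j, ∀ a : Finset (Fin N) → ℂ, (∀ R, D < R.card → a R = 0) →
    E3 (fun z => ‖gv a (te z)‖ ^ 2 * xq A z s j) ≤ K * ns a

/-- The errors made at a step, over the sign cube. -/
lemma err_sum_EE {A : Alg N B} (a : Finset (Fin N) → ℂ) (D : ℕ) {t : ℕ} (K : ℝ) (hK0 : 0 ≤ K)
    (hK : M3 A D t K) (ha : ∀ R, D < R.card → a R = 0) {s : ℕ} (hs : s ≤ t) :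
    EE (fun x => nsq (Er A a (sg x) (sg x) (Zs A x) s)) ≤ K * (D * ns a) := by
  unfold nsq
  rw [EE_sum]
  refine (Finset.sum_le_sum fun b _ => err_EE A a s b).trans ?_
  rw [Finset.sum_comm]
  have h1 : ∀ j, ∑ b, (if A.pos b = some j then
        E3 (fun z => ‖gv (lk j a) (te z)‖ ^ 2 * ‖gv (cb A s b) (te z)‖ ^ 2) else 0)
      ≤ K * ns (lk j a) := by
    intro j
    have hlk : ∀ R, D < R.card → lk j a R = 0 := by
      intro R hR
      unfold lk
      split_ifs with hj
      · rfl
      · apply ha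
        rw [Finset.card_insert_of_notMem hj]
        omega
    refine le_trans (le_of_eq ?_) (hK s hs j (lk j a) hlk)
    unfold xq
    simp_rw [Finset.mul_sum]
    rw [E3_sum]
    refine Finset.sum_congr rfl fun b _ => ?_
    split_ifs
    · rfl
    · simp only [mul_zero]
      rw [E3_const]
  refine (Finset.sum_le_sum fun j _ => h1 j).trans ?_
  rw [← Finset.mul_sum]
  have := ns_lk_sum a D ha
  gcongr

lemma qm_gv (A : Alg N B) (x : Fin N → Bool) (t : ℕ) (j : Fin N) :
    A.qm (sg x) t j = ∑ b, if A.pos b = some j then ‖gv (cb A t b) (sg x)‖ ^ 2 else 0 := by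
  unfold Alg.qm
  rw [st_eq]

/-- The multiplication bound over the sign cube, from the one with cube root phases. -/
theorem mult_gen {A : Alg N B} (a : Finset (Fin N) → ℂ) (D : ℕ) {t : ℕ} (K : ℝ) (hK0 : 0 ≤ K)
    (hK : M3 A D t K) (ha : ∀ R, D < R.card → a R = 0) (j : Fin N) :
    EE (fun x => ‖gv a (sg x)‖ ^ 2 * A.qm (sg x) t j)
      ≤ 2 * K * (1 + (t : ℝ) ^ 2 * D) * EE (fun x => ‖gv a (sg x)‖ ^ 2) := by
  have hns : EE (fun x => ‖gv a (sg x)‖ ^ 2) = ns a := pars_sg a
  rw [hns]
  have h1 : EE (fun x => ‖gv a (sg x)‖ ^ 2 * A.qm (sg x) t j)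
      ≤ EE (fun x => 2 * nq A j (fun b => dd a (cb A t b) (sg x) (sg x))
        + 2 * (t * ∑ s ∈ Finset.range t, nsq (Er A a (sg x) (sg x) (Zs A x) s))) := by
    apply EE_mono
    intro x
    have e1 := nq_gv A a (sg x) (sg x) t j
    have e2 := chain A a (sg x) (sg x) (Zs A x) (T := t) (fun s _ b => Zs_norm A x s b)
      (fun s _ b => gv_tg x (A.os b) (cb A s b)) t le_rfl
    rw [qm_gv]
    linarith
  rw [EE_add, EE_mul, EE_mul, EE_mul, EE_sum (Finset.range t)
    (fun s x => nsq (Er A a (sg x) (sg x) (Zs A x) s))] at h1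
  have h2 : EE (fun x => nq A j (fun b => dd a (cb A t b) (sg x) (sg x))) ≤ K * ns a := by
    refine le_trans ?_ (hK t le_rfl j a ha)
    unfold nq xq
    simp_rw [Finset.mul_sum]
    rw [EE_sum, E3_sum]
    refine Finset.sum_le_sum fun b _ => ?_
    split_ifs
    · exact proj a (cb A t b)
    · simp only [mul_zero]
      rw [E3_const, EE_const]
  have h3 : ∑ s ∈ Finset.range t, EE (fun x => nsq (Er A a (sg x) (sg x) (Zs A x) s))
      ≤ ∑ _s ∈ Finset.range t, K * (D * ns a) := by
    refine Finset.sum_le_sum fun s hs => ?_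
    exact err_sum_EE a D K hK0 hK ha (Finset.mem_range.1 hs).le
  rw [Finset.sum_const, Finset.card_range, nsmul_eq_mul] at h3
  have h0 : (0 : ℝ) ≤ t := Nat.cast_nonneg t
  have h7 := mul_le_mul_of_nonneg_left h3 h0
  refine h1.trans ?_
  have h8 : 2 * K * (1 + (t : ℝ) ^ 2 * D) * ns a
      = 2 * (K * ns a) + 2 * (t * (t * (K * (D * ns a)))) := by ring
  rw [h8]
  linarith

/-- **Multiplication by the query magnitude of a light algorithm with at most `k` entangled reads
on every path has a small norm on the functions of low degree.** -/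
theorem mult {A : Alg N B} {T k : ℕ} {c : ℕ → B → ℕ} {X : ℕ → Finset B} (h : KR A T k c X)
    (a : Finset (Fin N) → ℂ) (τ : ℝ) (hτ0 : 0 ≤ τ) (hτ : ∀ t < T, ∀ j, mp A t j ≤ τ)
    (D : ℕ) (ha : ∀ R, D < R.card → a R = 0) {t : ℕ} (ht : t < T) (j : Fin N) :
    EE (fun x => ‖gv a (sg x)‖ ^ 2 * A.qm (sg x) t j)
      ≤ 4 * (1 + (t : ℝ) ^ 2 * D) ^ 2 * (1 + 13 * ((t : ℝ) ^ 2 * D)) ^ k * τ
        * EE (fun x => ‖gv a (sg x)‖ ^ 2) := by
  have h1 := mult_gen (A := A) a D (t := t)
    ((2 + 2 * ((t : ℝ) ^ 2 * D)) * (1 + 13 * ((t : ℝ) ^ 2 * D)) ^ k * τ) (by positivity)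
    (fun s hs j a ha => by
      refine (mult3K h τ hτ0 hτ D a ha (show s < T by omega) j).trans ?_
      have hst : (s : ℝ) ≤ t := by exact_mod_cast hs
      have := ns_nonneg a
      gcongr) ha j
  refine h1.trans (le_of_eq ?_)
  ring

/-! ### Product reads, in terms of the states -/

/-- A product read: the amplitude of the basis state is the product of a real linear function of
the sign of `x j` and a function of the other positions. -/
def SFac (A : Alg N B) (t : ℕ) (b : B) (j : Fin N) : Prop :=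
  ∃ α β : ℝ, α ^ 2 + β ^ 2 = 1 ∧ ∃ φ : (Fin N → Bool) → ℂ, (∀ x, φ (flp j x) = φ x) ∧
    ∀ x, A.st (sg x) t b = (α + β * sg x j) * φ x

/-- At most `k` entangled reads on every path, in terms of the states. -/
structure KRs (A : Alg N B) (T k : ℕ) (c : ℕ → B → ℕ) (X : ℕ → Finset B) : Prop where
  le : ∀ t b, c t b ≤ k
  mono : ∀ t < T, ∀ b b', A.W t b' b ≠ 0 → c t b + (if b ∈ X t then 1 else 0) ≤ c (t + 1) b'
  fac : ∀ t < T, ∀ b, b ∉ X t → ∀ j, A.pos b = some j → SFac A t b j

lemma coef_inj (a : Finset (Fin N) → ℂ) (h : ∀ x, gv a (sg x) = 0) (S : Finset (Fin N)) :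
    a S = 0 := by
  have h1 : ns a = 0 := by
    unfold ns
    rw [← pars_sg a, ← EE_const (N := N) 0]
    apply EE_congr
    intro x
    have := h x
    unfold gv at this
    rw [this]
    simp
  have h2 : ‖a S‖ ^ 2 ≤ ns a :=
    Finset.single_le_sum (f := fun S => ‖a S‖ ^ 2) (fun _ _ => by positivity) (Finset.mem_univ S)
  rw [h1] at h2
  have h3 : ‖a S‖ = 0 := by
    have := norm_nonneg (a S)
    nlinarith
  exact norm_eq_zero.1 h3

lemma gv_off_flp (j : Fin N) (a : Finset (Fin N) → ℂ) (x : Fin N → Bool) :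
    gv (off j a) (sg (flp j x)) = gv (off j a) (sg x) := by
  unfold gv
  refine Finset.sum_congr rfl fun R _ => ?_
  unfold off
  split_ifs with h
  · simp
  · rw [mon_flp, if_neg h]

lemma gv_lk_flp (j : Fin N) (a : Finset (Fin N) → ℂ) (x : Fin N → Bool) :
    gv (lk j a) (sg (flp j x)) = gv (lk j a) (sg x) := by
  rw [← off_lk]
  exact gv_off_flp j _ x

lemma PFac_of_SFac {A : Alg N B} {t : ℕ} {b : B} {j : Fin N} (h : SFac A t b j) :
    PFac j (cb A t b) := by
  obtain ⟨α, β, hab, φ, hφ, hst⟩ := h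
  set c := cb A t b with hc
  have h1 : ∀ x, gv (off j c) (sg x) = α * φ x ∧ gv (lk j c) (sg x) = β * φ x := by
    intro x
    have e1 := hst x
    have e2 := hst (flp j x)
    rw [st_eq] at e1 e2
    simp only at e1 e2
    rw [← hc, gv_split j c] at e1 e2
    rw [gv_off_flp, gv_lk_flp, hφ] at e2
    have hj : sg (flp j x) j = - sg x j := by
      unfold sg
      rw [flp_same]
      cases x j <;> simp
    rw [hj] at e2
    have hs := sg_sq' x j
    constructor
    · linear_combination (1 / 2 : ℂ) * e1 + (1 / 2 : ℂ) * e2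
    · linear_combination (1 / 2 : ℂ) * sg x j * e1 - (1 / 2 : ℂ) * sg x j * e2
        - (gv (lk j c) (sg x) - β * φ x) * hs
  refine ⟨α, β, hab, fun S => α * off j c S + β * lk j c S, ?_, ?_⟩
  · funext S
    have h2 : (fun S => (β : ℂ) * off j c S + (-(α : ℂ)) * lk j c S) S = 0 := by
      refine coef_inj (fun S => (β : ℂ) * off j c S + (-(α : ℂ)) * lk j c S) (fun x => ?_) S
      have e : gv (fun S => (β : ℂ) * off j c S + (-(α : ℂ)) * lk j c S) (sg x)
          = β * gv (off j c) (sg x) - α * gv (lk j c) (sg x) := by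
        unfold gv
        rw [Finset.mul_sum, Finset.mul_sum, ← Finset.sum_sub_distrib]
        refine Finset.sum_congr rfl fun R _ => ?_
        ring
      rw [e, (h1 x).1, (h1 x).2]
      ring
    have h3 : ((α : ℂ) ^ 2 + (β : ℂ) ^ 2) = 1 := by exact_mod_cast hab
    simp only at h2 ⊢
    linear_combination (β : ℂ) * h2 - off j c S * h3
  · funext S
    have h2 : (fun S => (β : ℂ) * off j c S + (-(α : ℂ)) * lk j c S) S = 0 := by
      refine coef_inj (fun S => (β : ℂ) * off j c S + (-(α : ℂ)) * lk j c S) (fun x => ?_) S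
      have e : gv (fun S => (β : ℂ) * off j c S + (-(α : ℂ)) * lk j c S) (sg x)
          = β * gv (off j c) (sg x) - α * gv (lk j c) (sg x) := by
        unfold gv
        rw [Finset.mul_sum, Finset.mul_sum, ← Finset.sum_sub_distrib]
        refine Finset.sum_congr rfl fun R _ => ?_
        ring
      rw [e, (h1 x).1, (h1 x).2]
      ring
    have h3 : ((α : ℂ) ^ 2 + (β : ℂ) ^ 2) = 1 := by exact_mod_cast hab
    simp only at h2 ⊢
    linear_combination -(α : ℂ) * h2 - lk j c S * h3

lemma KR_of_KRs {A : Alg N B} {T k : ℕ} {c : ℕ → B → ℕ} {X : ℕ → Finset B} (h : KRs A T k c X) :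
    KR A T k c X :=
  ⟨h.le, h.mono, fun t ht b hb j hj => PFac_of_SFac (h.fac t ht b hb j hj)⟩

/-- The restrictions. -/
lemma res_KRs {A : Alg N B} {T k : ℕ} {c : ℕ → B → ℕ} {X : ℕ → Finset B} (h : KRs A T k c X)
    (S : Finset (Fin N)) (a : Fin N → Bool) : KRs (A.res S a) T k c X := by
  refine ⟨h.le, fun t ht b b' hw => ?_, fun t ht b hX j hb => ?_⟩
  · apply h.mono t ht b b'
    intro h0
    apply hw
    show (A.W t * Matrix.diagonal (A.fx S a)) b' b = 0
    rw [Matrix.mul_diagonal, h0, zero_mul]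
  · obtain ⟨h1, h2⟩ := A.res_pos.1 hb
    obtain ⟨α, β, hab, φ, hφ, hst⟩ := h.fac t ht b hX j h1
    refine ⟨α, β, hab, fun x => φ (mix S a x), fun x => ?_, fun x => ?_⟩
    · show φ (mix S a (flp j x)) = φ (mix S a x)
      rw [mix_flp_not_mem h2, hφ]
    · rw [A.res_st, hst]
      have : sg (mix S a x) j = sg x j := by
        unfold sg mix
        rw [if_neg h2]
      rw [this]

end Pool.Agent.TH334.PR
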