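import Pool.Agent.TH334.PR.Base

/-!
# Product reads, with cube root phases
-/

set_option autoImplicit false

namespace Pool.Agent.TH334.PR

open Finset Matrix Pool.Agent.H572R2 Pool.Agent.TH334.NR

variable {N : ℕ} {B : Type} [Fintype B] [DecidableEq B]

/-- The coefficients factor at `j`, with a real ratio. -/
def PFac (j : Fin N) (c : Finset (Fin N) → ℂ) : Prop :=
  ∃ α β : ℝ, α ^ 2 + β ^ 2 = 1 ∧ ∃ φ : Finset (Fin N) → ℂ,
    off j c = (fun S => (α : ℂ) * φ S) ∧ lk j c = fun S => (β : ℂ) * φ S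

/-- The multiplier. -/
noncomputable def ze (α β : ℝ) (w : ℂ) : ℂ :=
  if (α : ℂ) + β * w = 0 then 1 else (β + α * w) / (α + β * w)

lemma nsq_lin (α β : ℝ) (w : ℂ) (hw : ‖w‖ = 1) :
    ‖(α : ℂ) + β * w‖ ^ 2 = ‖(β : ℂ) + α * w‖ ^ 2 := by
  have h : w.re * w.re + w.im * w.im = 1 := by
    have h1 : ‖w‖ ^ 2 = 1 := by rw [hw]; norm_num
    rw [Complex.sq_norm, Complex.normSq_apply] at h1
    exact h1
  rw [Complex.sq_norm, Complex.sq_norm, Complex.normSq_apply, Complex.normSq_apply]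
  simp only [Complex.add_re, Complex.add_im, Complex.mul_re, Complex.mul_im, Complex.ofReal_re,
    Complex.ofReal_im, zero_mul, sub_zero, add_zero, zero_add]
  linear_combination (β ^ 2 - α ^ 2) * h

lemma ze_mul (α β : ℝ) (w : ℂ) (hw : ‖w‖ = 1) : ze α β w * (α + β * w) = β + α * w := by
  unfold ze
  split_ifs with h
  · have h1 := nsq_lin α β w hw
    rw [h] at h1
    have h2 : ‖(β : ℂ) + α * w‖ ^ 2 = 0 := by rw [← h1]; simp
    have h3 : (β : ℂ) + α * w = 0 := by
      rw [pow_eq_zero_iff (by norm_num)] at h2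
      exact norm_eq_zero.1 h2
    rw [h, h3, mul_zero]
  · rw [div_mul_cancel₀ _ h]

lemma ze_norm (α β : ℝ) (w : ℂ) (hw : ‖w‖ = 1) : ‖ze α β w‖ = 1 := by
  unfold ze
  split_ifs with h
  · simp
  · rw [norm_div, div_eq_one_iff_eq (by simpa using h)]
    have h1 := nsq_lin α β w hw
    exact ((pow_left_inj₀ (norm_nonneg _) (norm_nonneg _) (by norm_num)).1 h1).symm

lemma ze_one (α β : ℝ) : ze α β 1 = 1 := by
  unfold ze
  split_ifs with h
  · rfl
  · rw [mul_one] at h
    rw [mul_one, mul_one, add_comm (β : ℂ), div_self h]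

lemma err_sq (α β : ℝ) (hab : α ^ 2 + β ^ 2 = 1) (w : ℂ) (hw : ‖w‖ = 1) (hre : w.re = -1 / 2) :
    ‖(β : ℂ) - ze α β w * α‖ ^ 2 = (1 - 4 * (α * β) ^ 2) / (1 - α * β) := by
  have him : w.im * w.im = 3 / 4 := by
    have h1 : ‖w‖ ^ 2 = 1 := by rw [hw]; norm_num
    rw [Complex.sq_norm, Complex.normSq_apply, hre] at h1
    linarith
  have hD : ‖(α : ℂ) + β * w‖ ^ 2 = 1 - α * β := by
    rw [Complex.sq_norm, Complex.normSq_apply]
    simp only [Complex.add_re, Complex.add_im, Complex.mul_re, Complex.mul_im, Complex.ofReal_re,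
      Complex.ofReal_im, zero_mul, sub_zero, add_zero, zero_add, hre]
    linear_combination hab + β ^ 2 * him
  have hpos : 0 < 1 - α * β := by nlinarith [sq_nonneg (α - β)]
  have hne : (α : ℂ) + β * w ≠ 0 := by
    intro h
    rw [h] at hD
    simp at hD
    linarith
  have e : (β : ℂ) - ze α β w * α = ((β : ℂ) ^ 2 - (α : ℂ) ^ 2) * w / (α + β * w) := by
    unfold ze
    rw [if_neg hne]
    field_simp
    ring
  have e2 : ‖(β : ℂ) ^ 2 - (α : ℂ) ^ 2‖ ^ 2 = 1 - 4 * (α * β) ^ 2 := by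
    have : (β : ℂ) ^ 2 - (α : ℂ) ^ 2 = ((β ^ 2 - α ^ 2 : ℝ) : ℂ) := by push_cast; ring
    rw [this, Complex.norm_real, Real.norm_eq_abs, sq_abs]
    have h3 : (β ^ 2 - α ^ 2) ^ 2 = (α ^ 2 + β ^ 2) ^ 2 - 4 * (α * β) ^ 2 := by ring
    rw [h3, hab]
    norm_num
  rw [e, norm_div, norm_mul, hw, mul_one, div_pow, e2, hD]

lemma err_one (α β : ℝ) (hab : α ^ 2 + β ^ 2 = 1) :
    ‖(β : ℂ) - ze α β 1 * α‖ ^ 2 = 1 - 2 * (α * β) := by
  rw [ze_one, one_mul]
  have : (β : ℂ) - α = ((β - α : ℝ) : ℂ) := by push_cast; ring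
  rw [this, Complex.norm_real, Real.norm_eq_abs, sq_abs]
  linear_combination hab

lemma err_sum (α β : ℝ) (hab : α ^ 2 + β ^ 2 = 1) :
    ‖(β : ℂ) - ze α β (om ^ 0) * α‖ ^ 2 + ‖(β : ℂ) - ze α β (om ^ 1) * α‖ ^ 2
      + ‖(β : ℂ) - ze α β (om ^ 2) * α‖ ^ 2 ≤ 3 := by
  rw [pow_zero, err_one α β hab, pow_one, err_sq α β hab om norm_om rfl,
    err_sq α β hab (om ^ 2) (by rw [norm_pow, norm_om, one_pow]) (by rw [om_sq])]
  have hpos : 0 < 1 - α * β := by nlinarith [sq_nonneg (α - β)]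
  have h : (1 - 4 * (α * β) ^ 2) / (1 - α * β) ≤ 1 + α * β := by
    rw [div_le_iff₀ hpos]
    nlinarith [sq_nonneg (α * β)]
  linarith

/-! ### Averages over one coordinate -/

/-- Rotation of one coordinate. -/
def rot (j : Fin N) (c : Fin 3) : (Fin N → Fin 3) ≃ (Fin N → Fin 3) where
  toFun := fun z => Function.update z j (z j + c)
  invFun := fun z => Function.update z j (z j - c)
  left_inv := fun z => by
    simp
  right_inv := fun z => by
    simp

lemma E3_rot (j : Fin N) (c : Fin 3) (F : (Fin N → Fin 3) → ℝ) :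
    E3 (fun z => F (Function.update z j (z j + c))) = E3 F := by
  unfold E3
  congr 1
  exact Equiv.sum_comp (rot j c) F

lemma E3_avg (j : Fin N) (F : (Fin N → Fin 3) → ℝ) (f : Fin 3 → ℝ) (hf : f 0 + f 1 + f 2 ≤ 3)
    (hF : ∀ z, 0 ≤ F z) (hinv : ∀ z c, F (Function.update z j c) = F z) :
    E3 (fun z => f (z j) * F z) ≤ E3 F := by
  have h1 : ∀ c : Fin 3, E3 (fun z => f (z j) * F z) = E3 (fun z => f (z j + c) * F z) := by
    intro c
    rw [← E3_rot j c]
    apply E3_congr
    intro z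
    rw [Function.update_self, hinv]
  have h2 : 3 * E3 (fun z => f (z j) * F z) = E3 (fun z => (f 0 + f 1 + f 2) * F z) := by
    have h3 : ∑ c : Fin 3, E3 (fun z => f (z j + c) * F z) = 3 * E3 (fun z => f (z j) * F z) := by
      rw [Finset.sum_congr rfl fun c _ => (h1 c).symm]
      simp
    rw [← h3, ← E3_sum]
    apply E3_congr
    intro z
    rw [← Finset.sum_mul]
    congr 1
    have h4 : ∑ c : Fin 3, f (z j + c) = ∑ c : Fin 3, f c :=
      Equiv.sum_comp (Equiv.addLeft (z j)) f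
    rw [h4, Fin.sum_univ_three]
  have h5 : E3 (fun z => (f 0 + f 1 + f 2) * F z) ≤ E3 (fun z => 3 * F z) := by
    apply E3_mono
    intro z
    exact mul_le_mul_of_nonneg_right hf (hF z)
  rw [← h2, E3_mul] at h5
  linarith

/-- Isometry. -/
lemma dd_b (a c : Finset (Fin N) → ℂ) :
    E3 (fun z => ‖dd a c (fun i => star (te z i)) (te z)‖ ^ 2)
      = ∑ R, ∑ S, if Disjoint R S then ‖a R‖ ^ 2 * ‖c S‖ ^ 2 else 0 := by
  have h1 : ∀ z, dd a c (fun i => star (te z i)) (te z)
      = ∑ P : Finset (Fin N) × Finset (Fin N), ch c3 (rb P) z *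
        (if Disjoint P.2 P.1 then a P.2 * c P.1 else 0) := by
    intro z
    unfold dd
    rw [Fintype.sum_prod_type_right]
    refine Finset.sum_congr rfl fun R _ => Finset.sum_congr rfl fun S _ => ?_
    rw [← mon_te_b z (S, R)]
    split_ifs
    · ring
    · simp
  unfold E3
  simp_rw [h1]
  rw [pars_fib orth3 (rb : Finset (Fin N) × Finset (Fin N) → Fin N → Fin 3)
    (fun P => if Disjoint P.2 P.1 then a P.2 * c P.1 else 0),
    fib_inj rb _ (fun P => Disjoint P.1 P.2)
      (fun P hP => if_neg fun hh => hP hh.symm)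
      (fun P P' hP hP' e => rb_inj P P' hP hP' e),
    Fintype.sum_prod_type_right]
  have h3 : (Fintype.card (Fin 3) : ℝ) = 3 := by simp
  rw [h3, mul_comm, mul_div_assoc, div_self (by positivity), mul_one]
  refine Finset.sum_congr rfl fun R _ => Finset.sum_congr rfl fun S _ => ?_
  split_ifs
  · rw [norm_mul, mul_pow]
  · simp

lemma dd_b_le (a c : Finset (Fin N) → ℂ) :
    E3 (fun z => ‖dd a c (fun i => star (te z i)) (te z)‖ ^ 2) ≤ ns a * ns c := by
  rw [dd_b]
  unfold ns
  rw [Finset.sum_mul_sum]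
  refine Finset.sum_le_sum fun R _ => Finset.sum_le_sum fun S _ => ?_
  split_ifs
  · exact le_rfl
  · positivity

/-- A product without `j` does not depend on the phase of `j`. -/
lemma dd_inv (j : Fin N) (a c : Finset (Fin N) → ℂ) {w w' u u' : Fin N → ℂ}
    (hw : ∀ i, i ≠ j → w i = w' i) (hu : ∀ i, i ≠ j → u i = u' i) :
    dd (lk j a) (off j c) w u = dd (lk j a) (off j c) w' u' := by
  unfold dd
  refine Finset.sum_congr rfl fun R _ => Finset.sum_congr rfl fun S _ => ?_
  by_cases hR : j ∈ R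
  · simp [lk, hR]
  by_cases hS : j ∈ S
  · simp [off, hS]
  have e1 : mon w R = mon w' R :=
    Finset.prod_congr rfl fun i hi => hw i fun h => hR (h ▸ hi)
  have e2 : mon u S = mon u' S :=
    Finset.prod_congr rfl fun i hi => hu i fun h => hS (h ▸ hi)
  rw [e1, e2]

/-- The error at a product read. -/
lemma step_b (α β : ℝ) (hab : α ^ 2 + β ^ 2 = 1) (a c φ : Finset (Fin N) → ℂ) (j : Fin N)
    (h0 : off j c = fun S => (α : ℂ) * φ S) (h1 : lk j c = fun S => (β : ℂ) * φ S) :
    (∀ u : Fin N → ℂ, (∀ i, ‖u i‖ = 1) → gv (tg {j} c) u = ze α β (u j) * gv c u) ∧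
    E3 (fun z => ‖dd a (tg {j} c) (fun i => star (te z i)) (te z)
      - ze α β (te z j) * dd a c (fun i => star (te z i)) (te z)‖ ^ 2) ≤ ns (lk j a) * ns c := by
  have hns : ns c = ns φ := by
    rw [ns_split j c, h0, h1, ns_smul, ns_smul, Complex.norm_real, Complex.norm_real,
      Real.norm_eq_abs, Real.norm_eq_abs, sq_abs, sq_abs, ← add_mul, hab, one_mul]
  have hφ : φ = off j φ := by
    funext S
    unfold off
    split_ifs with hS
    · have e0 := congrFun h0 S
      have e1 := congrFun h1 S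
      unfold off at e0
      unfold lk at e1
      rw [if_pos hS] at e0 e1
      have e2 : ((α : ℂ) ^ 2 + (β : ℂ) ^ 2) * φ S = 0 := by
        linear_combination - (α : ℂ) * e0 - (β : ℂ) * e1
      have e3 : ((α : ℂ) ^ 2 + (β : ℂ) ^ 2) = 1 := by exact_mod_cast hab
      rwa [e3, one_mul] at e2
    · rfl
  refine ⟨fun u hu => ?_, ?_⟩
  · rw [gv_split j (tg {j} c), off_tg, lk_tg, gv_split j c, h0, h1, gv_smul, gv_smul]
    linear_combination - (gv φ u) * ze_mul α β (u j) (hu j)
  · have e : ∀ z, dd a (tg {j} c) (fun i => star (te z i)) (te z)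
        - ze α β (te z j) * dd a c (fun i => star (te z i)) (te z)
        = star (te z j) * ((β : ℂ) - ze α β (te z j) * α)
          * dd (lk j a) (off j φ) (fun i => star (te z i)) (te z) := by
      intro z
      rw [dd_split j a (tg {j} c), off_tg, lk_tg, dd_split j a c, h0, h1]
      simp only [dd_smul]
      rw [← hφ]
      linear_combination - (dd (off j a) φ (fun i => star (te z i)) (te z))
        * ze_mul α β (te z j) (norm_te z j)
    have e2 : E3 (fun z => ‖dd a (tg {j} c) (fun i => star (te z i)) (te z)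
        - ze α β (te z j) * dd a c (fun i => star (te z i)) (te z)‖ ^ 2)
        = E3 (fun z => (fun k : Fin 3 => ‖(β : ℂ) - ze α β (om ^ (k : ℕ)) * α‖ ^ 2) (z j)
          * ‖dd (lk j a) (off j φ) (fun i => star (te z i)) (te z)‖ ^ 2) := by
      apply E3_congr
      intro z
      rw [e z, norm_mul, norm_mul, norm_star, norm_te, one_mul, mul_pow]
      rfl
    rw [e2]
    refine (E3_avg j (fun z => ‖dd (lk j a) (off j φ) (fun i => star (te z i)) (te z)‖ ^ 2)
      (fun k : Fin 3 => ‖(β : ℂ) - ze α β (om ^ (k : ℕ)) * α‖ ^ 2) (err_sum α β hab)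
      (fun z => by positivity) (fun z k => ?_)).trans ?_
    · have := dd_inv j a φ (w := fun i => star (te (Function.update z j k) i))
        (w' := fun i => star (te z i)) (u := te (Function.update z j k)) (u' := te z)
        (fun i hi => by unfold te; rw [Function.update_of_ne hi])
        (fun i hi => by unfold te; rw [Function.update_of_ne hi])
      show ‖_‖ ^ 2 = ‖_‖ ^ 2
      rw [this]
    · rw [← hφ, hns]
      exact dd_b_le _ _

lemma tg_empty (c : Finset (Fin N) → ℂ) : tg ∅ c = c := by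
  funext S
  unfold tg
  rw [← Finset.bot_eq_empty, bot_symmDiff]

lemma os_none (A : Alg N B) {b : B} (h : A.pos b = none) : A.os b = ∅ := by
  unfold Alg.os
  rw [h]
  rfl

lemma os_some (A : Alg N B) {b : B} {j : Fin N} (h : A.pos b = some j) : A.os b = {j} := by
  unfold Alg.os
  rw [h]
  rfl

/-- The mass lost at a basis state. -/
noncomputable def lo (A : Alg N B) (a : Finset (Fin N) → ℂ) (t : ℕ) (b : B) : ℝ :=
  ∑ j, if A.pos b = some j then ns (lk j a) * ns (cb A t b) else 0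

lemma lo_some (A : Alg N B) (a : Finset (Fin N) → ℂ) (t : ℕ) {b : B} {j : Fin N}
    (h : A.pos b = some j) : lo A a t b = ns (lk j a) * ns (cb A t b) := by
  unfold lo
  rw [Finset.sum_eq_single j]
  · rw [if_pos h]
  · intro k _ hk
    rw [if_neg]
    intro h2
    rw [h] at h2
    exact hk (Option.some.inj h2).symm
  · intro h2; exact absurd (Finset.mem_univ _) h2

/-- The mass of the queries to `j`. -/
noncomputable def mp (A : Alg N B) (t : ℕ) (j : Fin N) : ℝ :=
  ∑ b, if A.pos b = some j then ns (cb A t b) else 0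

lemma mp_nonneg (A : Alg N B) (t : ℕ) (j : Fin N) : 0 ≤ mp A t j :=
  Finset.sum_nonneg fun b _ => by split_ifs; exacts [ns_nonneg _, le_rfl]

lemma mp_eq (A : Alg N B) (t : ℕ) (j : Fin N) : EE (fun x => A.qm (sg x) t j) = mp A t j := by
  unfold Alg.qm mp
  rw [EE_sum]
  refine Finset.sum_congr rfl fun b _ => ?_
  split_ifs
  · simp_rw [st_eq]
    exact pars_sg _
  · exact EE_const 0

lemma ns_lk (j : Fin N) (a : Finset (Fin N) → ℂ) : ns (lk j a) = ns (aj a j) := by
  unfold ns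
  conv_rhs => rw [sum_split j]
  refine Finset.sum_congr rfl fun R _ => ?_
  unfold lk aj
  by_cases h : j ∈ R
  · simp [h]
  · simp [h]

lemma ns_lk_sum (a : Finset (Fin N) → ℂ) (D : ℕ) (ha : ∀ R, D < R.card → a R = 0) :
    ∑ j, ns (lk j a) ≤ D * ns a := by
  simp_rw [ns_lk]
  exact ns_aj_sum a D ha

lemma sum_lo (A : Alg N B) (a : Finset (Fin N) → ℂ) (t : ℕ) (τ : ℝ) (hτ0 : 0 ≤ τ)
    (hτ : ∀ j, mp A t j ≤ τ)
    (D : ℕ) (ha : ∀ R, D < R.card → a R = 0) : ∑ b, lo A a t b ≤ D * ns a * τ := by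
  unfold lo
  rw [Finset.sum_comm]
  have h1 : ∀ j, ∑ b, (if A.pos b = some j then ns (lk j a) * ns (cb A t b) else 0)
      ≤ ns (lk j a) * τ := by
    intro j
    have : ∑ b, (if A.pos b = some j then ns (lk j a) * ns (cb A t b) else 0)
        = ns (lk j a) * mp A t j := by
      unfold mp
      rw [Finset.mul_sum]
      refine Finset.sum_congr rfl fun b _ => ?_
      split_ifs <;> simp
    rw [this]
    exact mul_le_mul_of_nonneg_left (hτ j) (ns_nonneg _)
  refine (Finset.sum_le_sum fun j _ => h1 j).trans ?_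
  rw [← Finset.sum_mul]
  exact mul_le_mul_of_nonneg_right (ns_lk_sum a D ha) hτ0

/-- The mass at the queries to `j`, with cube root phases. -/
noncomputable def xq (A : Alg N B) (z : Fin N → Fin 3) (t : ℕ) (j : Fin N) : ℝ :=
  ∑ b, if A.pos b = some j then ‖gv (cb A t b) (te z)‖ ^ 2 else 0

lemma nq_gv (A : Alg N B) (a : Finset (Fin N) → ℂ) (w u : Fin N → ℂ) (t : ℕ) (j : Fin N) :
    ‖gv a w‖ ^ 2 * (∑ b, if A.pos b = some j then ‖gv (cb A t b) u‖ ^ 2 else 0)
      ≤ 2 * nq A j (fun b => dd a (cb A t b) w u) + 2 * nsq (De A a w u t) := by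
  unfold nq nsq
  rw [Finset.mul_sum, Finset.mul_sum, Finset.mul_sum, ← Finset.sum_add_distrib]
  refine Finset.sum_le_sum fun b _ => ?_
  have h5 : 0 ≤ ‖De A a w u t b‖ ^ 2 := by positivity
  split_ifs
  · have h1 : gv a w * gv (cb A t b) u = dd a (cb A t b) w u + De A a w u t b := by
      unfold De; ring
    have h2 := norm_add_sq_le (dd a (cb A t b) w u) (De A a w u t b) 1 one_pos
    rw [← h1, norm_mul, mul_pow] at h2
    linarith
  · linarith

end Pool.Agent.TH334.PR
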